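import Pool.Agent.H618R3.FF.Lower

set_option autoImplicit false

/-! Asymptotics of the lower bound. -/

namespace Pool.Agent.H618R3.FF

open Finset Filter Topology

theorem gff_le_succ {r : ℕ} (hr : 2 ≤ r) (n : ℕ) : gff r n ≤ gff r (n + 1) := by
  classical
  obtain ⟨F, hF, hc⟩ := gff_mem r n
  rw [focalFree_iff hr] at hF
  have hinj : Function.Injective (fun x : Fin n → Bool => (Fin.cons false x : Fin (n + 1) → Bool)) :=
    fun x y h => (Fin.cons_right_injective (α := fun _ => Bool) false) h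
  have h1 : FocalFree r (F.image
      (fun x : Fin n → Bool => (Fin.cons false x : Fin (n + 1) → Bool))) := by
    rw [focalFree_iff hr]
    intro f' hf' y' hy' hne hpw
    obtain ⟨f, hf, rfl⟩ := mem_image.1 hf'
    choose y hy hyy using fun j => mem_image.1 (hy' j)
    refine hF f hf y hy (fun j hj => hne j ?_) ?_
    · rw [← hyy j, hj]
    · intro j j' hjj
      have h2 : Disjoint (Df _ (y' j)) (Df _ (y' j')) := hpw hjj
      rw [disjoint_left] at h2 ⊢
      intro i hi hi'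
      refine h2 (a := i.succ) ?_ ?_
      · rw [mem_Df, ← hyy j]
        rw [mem_Df] at hi
        simpa using hi
      · rw [mem_Df, ← hyy j']
        rw [mem_Df] at hi'
        simpa using hi'
  have h2 := le_gff h1
  rw [card_image_of_injective _ hinj, hc] at h2
  exact h2

theorem gff_mono {r : ℕ} (hr : 2 ≤ r) : Monotone (gff r) := monotone_nat_of_le_succ (gff_le_succ hr)

theorem poly_le_two_pow (A k : ℕ) : ∃ U : ℕ, ∀ u ≥ U, (A * u) ^ k ≤ 2 ^ u := by
  have h := tendsto_pow_const_div_const_pow_of_one_lt k (r := (2 : ℝ)) (by norm_num)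
  have hA : (0 : ℝ) < 1 / ((A : ℝ) + 1) ^ k := by positivity
  have h1 := h.eventually (gt_mem_nhds hA)
  rw [eventually_atTop] at h1
  obtain ⟨U, hU⟩ := h1
  refine ⟨U, fun u hu => ?_⟩
  have h2 := hU u hu
  rw [div_lt_div_iff₀ (by positivity) (by positivity), one_mul] at h2
  have h3 : ((A * u : ℕ) : ℝ) ^ k ≤ 2 ^ u := by
    push_cast
    rw [mul_pow]
    calc (A : ℝ) ^ k * (u : ℝ) ^ k ≤ ((A : ℝ) + 1) ^ k * (u : ℝ) ^ k := by
          gcongr
          linarith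
      _ = (u : ℝ) ^ k * ((A : ℝ) + 1) ^ k := by ring
      _ ≤ 2 ^ u := h2.le
  exact_mod_cast h3

theorem lower_mult {R : ℕ} (hR : 2 ≤ R) : ∃ q N₀ : ℕ, 1 ≤ q ∧ 1 ≤ N₀ ∧ ∀ N ≥ N₀,
    (2 : ℝ) ^ ((1 - 11 / (R : ℝ)) * ((q * N : ℕ) : ℝ)) ≤ (gff (R + 1) (q * N) : ℝ) := by
  obtain ⟨U, hU⟩ := poly_le_two_pow (3 * R) (R + 1)
  refine ⟨3 * R * 2 ^ (4 * R + 6), U + 1, Nat.one_le_iff_ne_zero.2 (by positivity), by omega,
    fun N hN => ?_⟩
  have hex := exists_family (M := R) (N := N) hR (Nat.lt_two_pow_self).le (by omega)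
  obtain ⟨u, hu⟩ : ∃ u : ℕ, u = 2 ^ (4 * R + 6) * N := ⟨_, rfl⟩
  rw [← hu] at hex
  obtain ⟨K, hK, hcard⟩ := hex
  have hq : 3 * R * 2 ^ (4 * R + 6) * N = 3 * R * u := by rw [hu]; ring
  rw [hq]
  have huU : U ≤ u := by
    rw [hu]
    calc U ≤ N := by omega
      _ = 1 * N := (one_mul N).symm
      _ ≤ 2 ^ (4 * R + 6) * N := Nat.mul_le_mul_right _ Nat.one_le_two_pow
  have h1 := hU u huU
  have h2 : K.card ≤ gff (R + 1) (3 * R * u) := by
    refine le_gff ?_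
    rw [focalFree_iff (by omega)]
    simpa using hK
  have h3 : 2 ^ (3 * R * u) ≤ gff (R + 1) (3 * R * u) * 2 ^ (33 * u) := by
    calc 2 ^ (3 * R * u) ≤ K.card * ((3 * R * u) ^ (R + 1) * 2 ^ (32 * u)) := hcard
      _ ≤ gff (R + 1) (3 * R * u) * (2 ^ u * 2 ^ (32 * u)) :=
        Nat.mul_le_mul h2 (Nat.mul_le_mul_right _ h1)
      _ = gff (R + 1) (3 * R * u) * 2 ^ (33 * u) := by
        rw [← pow_add]
        congr 2
        ring
  have h4 : (2 : ℝ) ^ (3 * R * u) ≤ (gff (R + 1) (3 * R * u) : ℝ) * 2 ^ (33 * u) := by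
    exact_mod_cast h3
  have hR0 : (R : ℝ) ≠ 0 := by
    have : 0 < R := by omega
    exact_mod_cast this.ne'
  have h5 : (1 - 11 / (R : ℝ)) * ((3 * R * u : ℕ) : ℝ) =
      ((3 * R * u : ℕ) : ℝ) - ((33 * u : ℕ) : ℝ) := by
    push_cast
    field_simp
    ring
  rw [h5, Real.rpow_sub (by norm_num), Real.rpow_natCast, Real.rpow_natCast,
    div_le_iff₀ (by positivity)]
  exact h4

theorem lower_all {R : ℕ} (hR : 2 ≤ R) : ∃ c : ℝ, 0 < c ∧ ∀ n : ℕ,
    c * (2 : ℝ) ^ ((1 - 11 / (R : ℝ)) * n) ≤ (gff (R + 1) n : ℝ) := by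
  obtain ⟨q, N₀, hq, hN₀, h⟩ := lower_mult hR
  have hR0 : (0 : ℝ) < R := by
    have : 0 < R := by omega
    exact_mod_cast this
  set s : ℝ := 1 - 11 / (R : ℝ) with hs
  have hs1 : s ≤ 1 := by
    rw [hs]
    have : 0 < 11 / (R : ℝ) := by positivity
    linarith
  refine ⟨(2 : ℝ) ^ (-((q * (N₀ + 1) : ℕ) : ℝ)), by positivity, fun n => ?_⟩
  rw [← Real.rpow_add (by norm_num)]
  have hnat : n = q * (n / q) + n % q := (Nat.div_add_mod n q).symm
  have hmod : n % q < q := Nat.mod_lt _ (by omega)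
  by_cases hn : N₀ ≤ n / q
  · have h1 := h (n / q) hn
    have h2 : gff (R + 1) (q * (n / q)) ≤ gff (R + 1) n := gff_mono (by omega) (Nat.mul_div_le n q)
    have h3 : (gff (R + 1) (q * (n / q)) : ℝ) ≤ (gff (R + 1) n : ℝ) := by exact_mod_cast h2
    refine le_trans ?_ (h1.trans h3)
    refine Real.rpow_le_rpow_of_exponent_le (by norm_num) ?_
    have h4 : (n : ℝ) = ((q * (n / q) : ℕ) : ℝ) + ((n % q : ℕ) : ℝ) := by exact_mod_cast hnat
    have h5 : ((n % q : ℕ) : ℝ) ≤ (q : ℝ) := by exact_mod_cast hmod.le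
    have h6 : (0 : ℝ) ≤ ((n % q : ℕ) : ℝ) := Nat.cast_nonneg _
    have h7 : (q : ℝ) ≤ ((q * (N₀ + 1) : ℕ) : ℝ) := by
      exact_mod_cast Nat.le_mul_of_pos_right q (by omega)
    have h8 : s * ((n % q : ℕ) : ℝ) ≤ (q : ℝ) := by nlinarith
    rw [h4]
    nlinarith
  · push Not at hn
    have h1 : (1 : ℝ) ≤ (gff (R + 1) n : ℝ) := by exact_mod_cast gff_pos (r := R + 1) (by omega)
    refine le_trans ?_ h1
    refine Real.rpow_le_one_of_one_le_of_nonpos (by norm_num) ?_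
    have h2 : n ≤ q * (N₀ + 1) := by
      calc n = q * (n / q) + n % q := hnat
        _ ≤ q * N₀ + q := Nat.add_le_add (Nat.mul_le_mul_left _ hn.le) hmod.le
        _ = q * (N₀ + 1) := by ring
    have h3 : (n : ℝ) ≤ ((q * (N₀ + 1) : ℕ) : ℝ) := by exact_mod_cast h2
    have h4 : s * (n : ℝ) ≤ n := by
      have : (0 : ℝ) ≤ n := Nat.cast_nonneg _
      nlinarith
    linarith

/-- The lower exponential growth rate. -/
noncomputable def sigmaMinus (r : ℕ) : ℝ :=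
  liminf (fun n : ℕ => Real.logb 2 (gff r n) / n) atTop

/-- The upper exponential growth rate. -/
noncomputable def sigmaPlus (r : ℕ) : ℝ :=
  limsup (fun n : ℕ => Real.logb 2 (gff r n) / n) atTop

theorem rate_nonneg {r : ℕ} (hr : 2 ≤ r) (n : ℕ) : 0 ≤ Real.logb 2 (gff r n) / n := by
  refine div_nonneg (Real.logb_nonneg (by norm_num) ?_) (Nat.cast_nonneg _)
  exact_mod_cast gff_pos hr

theorem rate_le_one {r : ℕ} (hr : 2 ≤ r) (n : ℕ) : Real.logb 2 (gff r n) / n ≤ 1 := by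
  rcases Nat.eq_zero_or_pos n with h | h
  · subst h
    simp
  · have hn : (0 : ℝ) < n := by exact_mod_cast h
    rw [div_le_one hn, Real.logb_le_iff_le_rpow (by norm_num) (by exact_mod_cast gff_pos hr),
      Real.rpow_natCast]
    exact_mod_cast gff_le_two_pow r n

theorem le_sigmaMinus {r : ℕ} (hr : 2 ≤ r) {s c : ℝ} (hc : 0 < c)
    (h : ∀ n : ℕ, c * (2 : ℝ) ^ (s * n) ≤ (gff r n : ℝ)) : s ≤ sigmaMinus r := by
  unfold sigmaMinus
  refine le_of_forall_pos_sub_le (fun ε hε => ?_)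
  have hcob : IsCoboundedUnder (· ≥ ·) atTop (fun n : ℕ => Real.logb 2 (gff r n) / n) :=
    (isBoundedUnder_of ⟨1, fun n => rate_le_one hr n⟩ :
      IsBoundedUnder (· ≤ ·) atTop _).isCoboundedUnder_ge
  refine le_liminf_of_le hcob ?_
  have h1 : Tendsto (fun n : ℕ => Real.logb 2 c / (n : ℝ)) atTop (𝓝 0) :=
    tendsto_const_div_atTop_nhds_zero_nat _
  have h2 := h1.eventually (lt_mem_nhds (show -ε < 0 by linarith))
  filter_upwards [h2, eventually_gt_atTop 0] with n hn hn0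
  have hn' : (0 : ℝ) < n := by exact_mod_cast hn0
  have h3 : Real.logb 2 (c * (2 : ℝ) ^ (s * n)) ≤ Real.logb 2 (gff r n) :=
    Real.logb_le_logb_of_le (by norm_num) (by positivity) (h n)
  rw [Real.logb_mul hc.ne' (by positivity), Real.logb_rpow (by norm_num) (by norm_num)] at h3
  rw [le_div_iff₀ hn']
  have h4 : -ε * n < Real.logb 2 c := by
    rwa [lt_div_iff₀ hn'] at hn
  nlinarith

theorem sigmaMinus_ge {r : ℕ} (hr : 3 ≤ r) : 1 - 11 / ((r : ℝ) - 1) ≤ sigmaMinus r := by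
  obtain ⟨c, hc, h⟩ := lower_all (R := r - 1) (by omega)
  have h1 : r - 1 + 1 = r := by omega
  rw [h1] at h
  have h2 : ((r - 1 : ℕ) : ℝ) = (r : ℝ) - 1 := by
    rw [Nat.cast_sub (by omega)]
    simp
  rw [h2] at h
  exact le_sigmaMinus (by omega) hc h

end Pool.Agent.H618R3.FF
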