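import Mathlib

set_option autoImplicit false

/-! Ball carving in the cube, at several levels. -/

namespace Pool.Agent.H618R3.FF

open Finset

/-- The set of coordinates in which two words differ. -/
def Df {n : ℕ} (x y : Fin n → Bool) : Finset (Fin n) := univ.filter (fun i => x i ≠ y i)

theorem mem_Df {n : ℕ} {x y : Fin n → Bool} {i : Fin n} : i ∈ Df x y ↔ x i ≠ y i := by
  simp [Df]

theorem Df_comm {n : ℕ} (x y : Fin n → Bool) : Df x y = Df y x := by
  ext i
  simp only [mem_Df, ne_comm]

theorem Df_eq_empty {n : ℕ} {x y : Fin n → Bool} : Df x y = ∅ ↔ x = y := by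
  constructor
  · intro h
    funext i
    by_contra hi
    have : i ∈ Df x y := mem_Df.2 hi
    rw [h] at this
    simp at this
  · rintro rfl
    ext i
    simp [mem_Df]

theorem Df_tri {n : ℕ} (x y z : Fin n → Bool) : (Df x z).card ≤ (Df x y).card + (Df y z).card := by
  have h : Df x z ⊆ Df x y ∪ Df y z := by
    intro i hi
    rw [mem_union, mem_Df, mem_Df]
    rw [mem_Df] at hi
    by_contra hc
    push Not at hc
    exact hi (hc.1.trans hc.2)
  exact (card_le_card h).trans (card_union_le _ _)

/-- The word obtained by flipping the coordinates in `S`. -/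
def flip {n : ℕ} (x : Fin n → Bool) (S : Finset (Fin n)) : Fin n → Bool :=
  fun i => if i ∈ S then !(x i) else x i

theorem Df_flip {n : ℕ} (x : Fin n → Bool) (S : Finset (Fin n)) : Df x (flip x S) = S := by
  ext i
  rw [mem_Df, flip]
  by_cases h : i ∈ S <;> simp [h]

theorem flip_Df {n : ℕ} (x y : Fin n → Bool) : flip x (Df x y) = y := by
  funext i
  unfold flip
  by_cases h : i ∈ Df x y
  · rw [if_pos h]
    rw [mem_Df] at h
    cases hx : x i <;> cases hy : y i <;> simp_all
  · rw [if_neg h]
    rw [mem_Df] at h
    simpa using h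

/-- Volume of the ball of radius `b`. -/
def V (n b : ℕ) : ℕ := ∑ i ∈ range (b + 1), n.choose i

theorem card_sphere {n : ℕ} (x : Fin n → Bool) (a : ℕ) :
    (univ.filter (fun c : Fin n → Bool => (Df x c).card = a)).card = n.choose a := by
  have h : (powersetCard a (univ : Finset (Fin n))).card = n.choose a := by
    rw [card_powersetCard, card_univ, Fintype.card_fin]
  rw [← h]
  refine card_bij' (fun c _ => Df x c) (fun S _ => flip x S) ?_ ?_ ?_ ?_
  · intro c hc
    rw [mem_powersetCard]
    exact ⟨subset_univ _, (mem_filter.1 hc).2⟩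
  · intro S hS
    rw [mem_filter, Df_flip]
    exact ⟨mem_univ _, (mem_powersetCard.1 hS).2⟩
  · intro c _
    exact flip_Df x c
  · intro S _
    exact Df_flip x S

theorem card_ball {n : ℕ} (x : Fin n → Bool) (b : ℕ) :
    (univ.filter (fun c : Fin n → Bool => (Df x c).card ≤ b)).card = V n b := by
  rw [card_eq_sum_card_fiberwise (f := fun c => (Df x c).card) (t := range (b + 1))]
  · unfold V
    refine sum_congr rfl (fun i hi => ?_)
    rw [← card_sphere x i, filter_filter]
    congr 1
    ext c
    simp only [mem_filter, mem_univ, true_and]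
    rw [mem_range] at hi
    constructor
    · exact fun h => h.2
    · exact fun h => ⟨by omega, h⟩
  · intro c hc
    have := (mem_filter.1 (mem_coe.1 hc)).2
    simp only [coe_range, Set.mem_Iio]
    omega

theorem sum_swap {n : ℕ} (X : Finset (Fin n → Bool)) (P : ℕ → Prop) [DecidablePred P] (v : ℕ)
    (hv : ∀ x : Fin n → Bool,
      (univ.filter (fun c : Fin n → Bool => P (Df x c).card)).card = v) :
    ∑ c : Fin n → Bool, (X.filter (fun x => P (Df x c).card)).card = X.card * v := by
  have h1 : ∀ c : Fin n → Bool, (X.filter (fun x => P (Df x c).card)).card =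
      ∑ x ∈ X, if P (Df x c).card then 1 else 0 := fun c => by
    rw [card_filter]
  rw [sum_congr rfl (fun c _ => h1 c), sum_comm]
  rw [card_eq_sum_ones, sum_mul]
  refine sum_congr rfl (fun x _ => ?_)
  rw [one_mul, ← hv x, card_filter]

/-- There is a centre whose sphere catches its share of the ball. -/
theorem exists_center {n : ℕ} (a b : ℕ) (hab : a ≤ b) (X : Finset (Fin n → Bool))
    (hX : X.Nonempty) : ∃ c : Fin n → Bool, (X.filter (fun x => (Df x c).card ≤ b)).Nonempty ∧
      (X.filter (fun x => (Df x c).card ≤ b)).card * n.choose a ≤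
        (X.filter (fun x => (Df x c).card = a)).card * V n b := by
  classical
  by_contra hcon
  push Not at hcon
  have h1 := sum_swap X (fun k => k ≤ b) (V n b) (fun x => card_ball x b)
  have h2 := sum_swap X (fun k => k = a) (n.choose a) (fun x => card_sphere x a)
  obtain ⟨x0, hx0⟩ := hX
  have hlt : ∑ c : Fin n → Bool, (X.filter (fun x => (Df x c).card = a)).card * V n b <
      ∑ c : Fin n → Bool, (X.filter (fun x => (Df x c).card ≤ b)).card * n.choose a := by
    refine sum_lt_sum (fun c _ => ?_) ⟨x0, mem_univ _, hcon x0 ⟨x0, ?_⟩⟩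
    · by_cases hne : (X.filter (fun x => (Df x c).card ≤ b)).Nonempty
      · exact (hcon c hne).le
      · rw [not_nonempty_iff_eq_empty] at hne
        have h3 : X.filter (fun x => (Df x c).card = a) = ∅ := by
          rw [filter_eq_empty_iff] at hne ⊢
          intro x hx h
          exact hne hx (by omega)
        rw [h3, hne]
        simp
    · rw [mem_filter]
      refine ⟨hx0, ?_⟩
      rw [Df_eq_empty.2 rfl]
      simp
  rw [← sum_mul, ← sum_mul, h1, h2] at hlt
  have : X.card * n.choose a * V n b = X.card * V n b * n.choose a := by ring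
  omega

/-- One level of carving. -/
theorem carve {n : ℕ} (a t : ℕ) (X : Finset (Fin n → Bool)) :
    ∃ K ⊆ X, ∃ κ : (Fin n → Bool) → (Fin n → Bool),
      X.card * n.choose a ≤ K.card * V n (a + t) ∧
      (∀ y ∈ K, (Df y (κ y)).card = a) ∧
      ∀ y ∈ K, ∀ y' ∈ K, κ y ≠ κ y' → t < (Df y y').card := by
  classical
  induction X using Finset.strongInduction with
  | H X ih =>
    by_cases hX : X.Nonempty
    · obtain ⟨c, hne, hc⟩ := exists_center a (a + t) (Nat.le_add_right _ _) X hX
      set B := X.filter (fun x => (Df x c).card ≤ a + t) with hB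
      set S := X.filter (fun x => (Df x c).card = a) with hS
      have hBX : B ⊆ X := filter_subset _ _
      have hSB : S ⊆ B := by
        intro x hx
        rw [hS, mem_filter] at hx
        rw [hB, mem_filter]
        exact ⟨hx.1, by omega⟩
      have hss : X \ B ⊂ X := by
        refine sdiff_ssubset hBX hne
      obtain ⟨K, hK, κ, h1, h2, h3⟩ := ih (X \ B) hss
      have hdis : Disjoint S K := by
        rw [disjoint_left]
        intro x hx hxK
        exact (mem_sdiff.1 (hK hxK)).2 (hSB hx)
      have key : ∀ y ∈ S, ∀ y' ∈ K, t < (Df y y').card := by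
        intro y hy y' hy'
        have h4 : (Df y c).card = a := (mem_filter.1 hy).2
        have h5 := mem_sdiff.1 (hK hy')
        have h6 : ¬ (Df y' c).card ≤ a + t := fun h => h5.2 (mem_filter.2 ⟨h5.1, h⟩)
        have h7 := Df_tri y' y c
        rw [Df_comm y' y] at h7
        omega
      refine ⟨S ∪ K, union_subset (hSB.trans hBX) (hK.trans sdiff_subset),
        fun y => if y ∈ B then c else κ y, ?_, ?_, ?_⟩
      · rw [card_union_of_disjoint hdis, add_mul]
        have h8 : X.card = B.card + (X \ B).card := by
          rw [card_sdiff_of_subset hBX]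
          have := card_le_card hBX
          omega
        rw [h8, add_mul]
        exact Nat.add_le_add hc h1
      · intro y hy
        rcases mem_union.1 hy with hy | hy
        · simp only [if_pos (hSB hy)]
          exact (mem_filter.1 hy).2
        · have : y ∉ B := (mem_sdiff.1 (hK hy)).2
          simp only [if_neg this]
          exact h2 y hy
      · intro y hy y' hy' hne'
        rcases mem_union.1 hy with hy | hy <;> rcases mem_union.1 hy' with hy' | hy'
        · simp only [if_pos (hSB hy), if_pos (hSB hy')] at hne'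
          exact absurd rfl hne'
        · exact key y hy y' hy'
        · rw [Df_comm]
          exact key y' hy' y hy
        · have hn1 : y ∉ B := (mem_sdiff.1 (hK hy)).2
          have hn2 : y' ∉ B := (mem_sdiff.1 (hK hy')).2
          simp only [if_neg hn1, if_neg hn2] at hne'
          exact h3 y hy y' hy' hne'
    · rw [not_nonempty_iff_eq_empty] at hX
      subst hX
      exact ⟨∅, subset_rfl, id, by simp, by simp, by simp⟩

/-- Several levels of carving. -/
theorem carve_levels {n : ℕ} (a t : ℕ → ℕ) (m : ℕ) :
    ∃ K : Finset (Fin n → Bool), ∃ κ : ℕ → (Fin n → Bool) → (Fin n → Bool),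
      2 ^ n * ∏ j ∈ range m, n.choose (a j) ≤ K.card * ∏ j ∈ range m, V n (a j + t j) ∧
      ∀ j < m, (∀ y ∈ K, (Df y (κ j y)).card = a j) ∧
        ∀ y ∈ K, ∀ y' ∈ K, κ j y ≠ κ j y' → t j < (Df y y').card := by
  classical
  induction m with
  | zero =>
    refine ⟨univ, fun _ => id, ?_, fun j hj => absurd hj (Nat.not_lt_zero _)⟩
    simp
  | succ m ih =>
    obtain ⟨X, κ, h1, h2⟩ := ih
    obtain ⟨K, hK, κ', h3, h4, h5⟩ := carve (a m) (t m) X
    refine ⟨K, fun j => if j = m then κ' else κ j, ?_, ?_⟩
    · rw [prod_range_succ, prod_range_succ]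
      calc 2 ^ n * ((∏ j ∈ range m, n.choose (a j)) * n.choose (a m))
          = (2 ^ n * ∏ j ∈ range m, n.choose (a j)) * n.choose (a m) := by ring
        _ ≤ (X.card * ∏ j ∈ range m, V n (a j + t j)) * n.choose (a m) :=
            Nat.mul_le_mul_right _ h1
        _ = (X.card * n.choose (a m)) * ∏ j ∈ range m, V n (a j + t j) := by ring
        _ ≤ (K.card * V n (a m + t m)) * ∏ j ∈ range m, V n (a j + t j) :=
            Nat.mul_le_mul_right _ h3
        _ = K.card * ((∏ j ∈ range m, V n (a j + t j)) * V n (a m + t m)) := by ring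
    · intro j hj
      by_cases hjm : j = m
      · subst hjm
        simp only [if_true]
        exact ⟨h4, h5⟩
      · simp only [if_neg hjm]
        obtain ⟨h6, h7⟩ := h2 j (by omega)
        exact ⟨fun y hy => h6 y (hK hy), fun y hy y' hy' => h7 y (hK hy) y' (hK hy')⟩

end Pool.Agent.H618R3.FF
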