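import Pool.Agent.H618R3.FF.Carve

set_option autoImplicit false

/-! Focal families. -/

namespace Pool.Agent.H618R3.FF

open Finset

/-- The words `f` (the focus) and `y j` form a focal family of size `r`. -/
def Focal (r : ℕ) {n : ℕ} (f : Fin n → Bool) (y : Fin (r - 1) → Fin n → Bool) : Prop :=
  Function.Injective y ∧ (∀ j, y j ≠ f) ∧
    ∀ i, r - 2 ≤ (univ.filter (fun j => y j i = f i)).card

/-- No `r` members of `F` form a focal family. -/
def FocalFree (r : ℕ) {n : ℕ} (F : Finset (Fin n → Bool)) : Prop :=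
  ∀ f ∈ F, ∀ y : Fin (r - 1) → Fin n → Bool, (∀ j, y j ∈ F) → ¬ Focal r f y

/-- The largest cardinality of a focal-free family. -/
noncomputable def gff (r n : ℕ) : ℕ :=
  sSup {k : ℕ | ∃ F : Finset (Fin n → Bool), FocalFree r F ∧ F.card = k}

/-- No member of `F` has `R` pairwise disjoint differences to other members. -/
def NoDisj (R : ℕ) {n : ℕ} (F : Finset (Fin n → Bool)) : Prop :=
  ∀ f ∈ F, ∀ y : Fin R → Fin n → Bool, (∀ j, y j ∈ F) → (∀ j, y j ≠ f) →
    ¬ Pairwise (fun j j' => Disjoint (Df f (y j)) (Df f (y j')))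

theorem card_agree {n R : ℕ} (f : Fin n → Bool) (y : Fin R → Fin n → Bool) (i : Fin n) :
    (univ.filter (fun j => y j i = f i)).card +
      (univ.filter (fun j => i ∈ Df f (y j))).card = R := by
  have h : univ.filter (fun j => i ∈ Df f (y j)) =
      univ.filter (fun j => ¬ (y j i = f i)) := by
    ext j
    simp only [mem_filter, mem_univ, true_and, mem_Df]
    exact ⟨fun h h' => h h'.symm, fun h h' => h h'.symm⟩
  rw [h, card_filter_add_card_filter_not]
  simp

theorem focalFree_iff {r n : ℕ} (hr : 2 ≤ r) (F : Finset (Fin n → Bool)) :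
    FocalFree r F ↔ NoDisj (r - 1) F := by
  constructor
  · intro h f hf y hy hne hpw
    refine h f hf y hy ⟨?_, hne, ?_⟩
    · intro j j' hjj
      by_contra hne'
      have h1 : Disjoint (Df f (y j)) (Df f (y j')) := hpw hne'
      rw [hjj] at h1
      rw [disjoint_self] at h1
      exact hne j' (Df_eq_empty.1 h1).symm
    · intro i
      have h1 := card_agree f y i
      have h2 : (univ.filter (fun j => i ∈ Df f (y j))).card ≤ 1 := by
        rw [card_le_one]
        intro j hj j' hj'
        by_contra hne'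
        exact disjoint_left.1 (hpw hne') (mem_filter.1 hj).2 (mem_filter.1 hj').2
      omega
  · intro h f hf y hy hfoc
    refine h f hf y hy hfoc.2.1 ?_
    intro j j' hne
    rw [disjoint_left]
    intro i hi hi'
    have h1 := card_agree f y i
    have h2 : 1 < (univ.filter (fun j => i ∈ Df f (y j))).card := by
      rw [one_lt_card]
      exact ⟨j, mem_filter.2 ⟨mem_univ _, hi⟩, j', mem_filter.2 ⟨mem_univ _, hi'⟩, hne⟩
    have h3 := hfoc.2.2 i
    omega

theorem bdd (r n : ℕ) :
    BddAbove {k : ℕ | ∃ F : Finset (Fin n → Bool), FocalFree r F ∧ F.card = k} := by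
  refine ⟨2 ^ n, ?_⟩
  rintro k ⟨F, -, rfl⟩
  have := card_le_univ F
  simpa using this

theorem le_gff {r n : ℕ} {F : Finset (Fin n → Bool)} (h : FocalFree r F) : F.card ≤ gff r n :=
  le_csSup (bdd r n) ⟨F, h, rfl⟩

theorem gff_mem (r n : ℕ) :
    ∃ F : Finset (Fin n → Bool), FocalFree r F ∧ F.card = gff r n := by
  have h : gff r n ∈ {k : ℕ | ∃ F : Finset (Fin n → Bool), FocalFree r F ∧ F.card = k} := by
    refine Nat.sSup_mem ⟨0, ∅, ?_, rfl⟩ (bdd r n)
    intro f hf
    simp at hf
  exact h

theorem gff_le {r n : ℕ} (hr : 2 ≤ r) {b : ℕ}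
    (h : ∀ F : Finset (Fin n → Bool), NoDisj (r - 1) F → F.card ≤ b) : gff r n ≤ b := by
  obtain ⟨F, hF, hc⟩ := gff_mem r n
  rw [← hc]
  exact h F ((focalFree_iff hr F).1 hF)

theorem gff_pos {r n : ℕ} (hr : 2 ≤ r) : 1 ≤ gff r n := by
  have h : FocalFree r ({fun _ => false} : Finset (Fin n → Bool)) := by
    rw [focalFree_iff hr]
    intro f hf y hy hne _
    have h1 := hy ⟨0, by omega⟩
    rw [mem_singleton] at h1 hf
    exact hne _ (h1.trans hf.symm)
  have := le_gff h
  simpa using this

theorem gff_le_two_pow (r n : ℕ) : gff r n ≤ 2 ^ n := by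
  refine csSup_le' ?_
  rintro k ⟨F, -, rfl⟩
  have := card_le_univ F
  simpa using this

/-- Half of the difference lies in each side. -/
theorem half {n : ℕ} (x y c : Fin n → Bool) (h : (Df x c).card = (Df y c).card) :
    2 * (Df x y ∩ Df x c).card = (Df x y).card := by
  classical
  have h1 : Df x y ∩ Df x c = Df x c \ Df y c := by
    ext i
    rw [mem_inter, mem_sdiff, mem_Df, mem_Df, mem_Df]
    cases x i <;> cases y i <;> cases c i <;> simp
  have h2 : Df x y \ Df x c = Df y c \ Df x c := by
    ext i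
    rw [mem_sdiff, mem_sdiff, mem_Df, mem_Df, mem_Df]
    cases x i <;> cases y i <;> cases c i <;> simp
  have h3 : (Df x c \ Df y c).card = (Df y c \ Df x c).card := card_sdiff_comm h
  have h4 : (Df x y).card = (Df x y ∩ Df x c).card + (Df x y \ Df x c).card := by
    rw [add_comm, card_sdiff_add_card_inter]
  rw [h4, h2, ← h3, h1]
  ring

theorem noDisj_of_levels {n m R : ℕ} (hR : 0 < R) (hm : 0 < m) (a t : ℕ → ℕ) (b : ℕ → ℝ)
    (ha : a (m - 1) = 0) (ht : ∀ j < m, 0 < t j)
    (hb0 : (n : ℝ) ≤ b 0 * R * t 0)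
    (hb : ∀ j, j + 1 < m → 2 * (a j : ℝ) ≤ b (j + 1) * R * t (j + 1))
    (hbs : ∑ j ∈ range m, b j < 1)
    (K : Finset (Fin n → Bool)) (κ : ℕ → (Fin n → Bool) → (Fin n → Bool))
    (h : ∀ j < m, (∀ y ∈ K, (Df y (κ j y)).card = a j) ∧
        ∀ y ∈ K, ∀ y' ∈ K, κ j y ≠ κ j y' → t j < (Df y y').card) : NoDisj R K := by
  classical
  intro f hf y hy hne hpw
  have hlast : ∀ x ∈ K, κ (m - 1) x = x := by
    intro x hx
    have h1 := (h (m - 1) (by omega)).1 x hx
    rw [ha, card_eq_zero] at h1
    exact (Df_eq_empty.1 h1).symm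
  have hex : ∀ i, ∃ j, κ j f ≠ κ j (y i) := by
    intro i
    refine ⟨m - 1, ?_⟩
    rw [hlast f hf, hlast _ (hy i)]
    exact (hne i).symm
  set lev : Fin R → ℕ := fun i => Nat.find (hex i) with hlev
  have hlt : ∀ i, lev i < m := by
    intro i
    have h1 : lev i ≤ m - 1 := by
      refine Nat.find_min' (hex i) ?_
      rw [hlast f hf, hlast _ (hy i)]
      exact (hne i).symm
    omega
  have hspec : ∀ i, κ (lev i) f ≠ κ (lev i) (y i) := fun i => Nat.find_spec (hex i)
  have hmin : ∀ i j, j < lev i → κ j f = κ j (y i) := fun i j hj => by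
    have := Nat.find_min (hex i) hj
    simpa using this
  have hD : ∀ i, t (lev i) < (Df f (y i)).card :=
    fun i => (h (lev i) (hlt i)).2 f hf (y i) (hy i) (hspec i)
  -- number of indices at a level
  have hN0 : (univ.filter (fun i => lev i = 0)).card * t 0 ≤ n := by
    have h1 : ∑ i ∈ univ.filter (fun i => lev i = 0), (Df f (y i)).card ≤ n := by
      rw [← card_biUnion]
      · have := card_le_univ ((univ.filter (fun i => lev i = 0)).biUnion (fun i => Df f (y i)))
        simpa using this
      · intro i _ i' _ hii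
        exact hpw hii
    refine le_trans ?_ h1
    rw [← smul_eq_mul]
    refine card_nsmul_le_sum _ _ _ (fun i hi => ?_)
    have h2 := hD i
    rw [(mem_filter.1 hi).2] at h2
    exact h2.le
  have hNj : ∀ j, j + 1 < m →
      (univ.filter (fun i => lev i = j + 1)).card * t (j + 1) ≤ 2 * a j := by
    intro j hj
    set A := Df f (κ j f) with hA
    have hAc : A.card = a j := (h j (by omega)).1 f hf
    have h1 : ∑ i ∈ univ.filter (fun i => lev i = j + 1), (Df f (y i) ∩ A).card ≤ a j := by
      rw [← card_biUnion, ← hAc]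
      · refine card_le_card ?_
        rw [biUnion_subset]
        intro i _
        exact inter_subset_right
      · intro i _ i' _ hii
        exact (hpw hii).mono inter_subset_left inter_subset_left
    have h2 : ∀ i ∈ univ.filter (fun i => lev i = j + 1),
        t (j + 1) ≤ 2 * (Df f (y i) ∩ A).card := by
      intro i hi
      have h3 := hD i
      have hl := (mem_filter.1 hi).2
      rw [hl] at h3
      have h4 : κ j f = κ j (y i) := hmin i j (by omega)
      have h5 : (Df f (κ j f)).card = (Df (y i) (κ j f)).card := by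
        rw [(h j (by omega)).1 f hf, h4, (h j (by omega)).1 (y i) (hy i)]
      have h6 := half f (y i) (κ j f) h5
      rw [← hA] at h6
      omega
    calc (univ.filter (fun i => lev i = j + 1)).card * t (j + 1)
        ≤ ∑ i ∈ univ.filter (fun i => lev i = j + 1), 2 * (Df f (y i) ∩ A).card := by
          rw [← smul_eq_mul]
          exact card_nsmul_le_sum _ _ _ h2
      _ = 2 * ∑ i ∈ univ.filter (fun i => lev i = j + 1), (Df f (y i) ∩ A).card := by
          rw [mul_sum]
      _ ≤ 2 * a j := Nat.mul_le_mul_left _ h1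
  have hsum : ∑ j ∈ range m, (univ.filter (fun i => lev i = j)).card = R := by
    rw [← card_eq_sum_card_fiberwise (f := lev) (s := univ) (t := range m)]
    · simp
    · intro i _
      simpa using hlt i
  have hN : ∀ j ∈ range m, ((univ.filter (fun i => lev i = j)).card : ℝ) ≤ b j * R := by
    intro j hj
    rw [mem_range] at hj
    have htj : (0 : ℝ) < t j := by exact_mod_cast ht j hj
    rcases j with _ | j
    · have h1 : (((univ.filter (fun i => lev i = 0)).card : ℝ)) * t 0 ≤ n := by exact_mod_cast hN0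
      exact le_of_mul_le_mul_right (h1.trans hb0) htj
    · have h1 : (((univ.filter (fun i => lev i = j + 1)).card : ℝ)) * t (j + 1) ≤ 2 * a j := by
        exact_mod_cast hNj j hj
      exact le_of_mul_le_mul_right (h1.trans (hb j hj)) htj
  have hfin : (R : ℝ) ≤ (∑ j ∈ range m, b j) * R := by
    rw [sum_mul]
    calc (R : ℝ) = ((∑ j ∈ range m, (univ.filter (fun i => lev i = j)).card : ℕ) : ℝ) := by
          rw [hsum]
      _ = ∑ j ∈ range m, ((univ.filter (fun i => lev i = j)).card : ℝ) := by push_cast; rfl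
      _ ≤ ∑ j ∈ range m, b j * R := sum_le_sum hN
  have hRpos : (0 : ℝ) < R := by exact_mod_cast hR
  nlinarith

end Pool.Agent.H618R3.FF
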