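import Pool.Agent.H618R3.FF.Defs

set_option autoImplicit false

/-! Volume estimates and the choice of the levels. -/

namespace Pool.Agent.H618R3.FF

open Finset

theorem choose_step (n a : ℕ) (s : ℕ) : n.choose (a + s) * a ^ s ≤ n.choose a * n ^ s := by
  induction s with
  | zero => simp
  | succ s ih =>
    have h1 : n.choose (a + s + 1) * (a + s + 1) = n.choose (a + s) * (n - (a + s)) :=
      Nat.choose_succ_right_eq n (a + s)
    have h2 : n.choose (a + s + 1) * a ≤ n.choose (a + s) * n := by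
      calc n.choose (a + s + 1) * a ≤ n.choose (a + s + 1) * (a + s + 1) :=
            Nat.mul_le_mul_left _ (by omega)
        _ = n.choose (a + s) * (n - (a + s)) := h1
        _ ≤ n.choose (a + s) * n := Nat.mul_le_mul_left _ (Nat.sub_le _ _)
    calc n.choose (a + (s + 1)) * a ^ (s + 1) = (n.choose (a + s + 1) * a) * a ^ s := by
          rw [pow_succ]; ring_nf
      _ ≤ (n.choose (a + s) * n) * a ^ s := Nat.mul_le_mul_right _ h2
      _ = (n.choose (a + s) * a ^ s) * n := by ring
      _ ≤ (n.choose a * n ^ s) * n := Nat.mul_le_mul_right _ ih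
      _ = n.choose a * n ^ (s + 1) := by rw [pow_succ]; ring

theorem choose_mono_half {n a i : ℕ} (ha : 2 * a ≤ n) (hi : i ≤ a) :
    n.choose i ≤ n.choose a := by
  induction a, hi using Nat.le_induction with
  | base => exact le_rfl
  | succ a hia ih =>
    have h1 : n.choose a ≤ n.choose (a + 1) := Nat.choose_le_succ_of_lt_half_left (by omega)
    exact (ih (by omega)).trans h1

theorem V_le {n a : ℕ} (t : ℕ) (ha : 2 * a ≤ n) :
    V n (a + t) * a ^ t ≤ (a + t + 1) * (n.choose a * n ^ t) := by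
  unfold V
  rw [sum_mul]
  have h : ∀ i ∈ range (a + t + 1), n.choose i * a ^ t ≤ n.choose a * n ^ t := by
    intro i hi
    rw [mem_range] at hi
    have han : a ≤ n := by omega
    rcases le_total i a with h | h
    · exact Nat.mul_le_mul (choose_mono_half ha h) (Nat.pow_le_pow_left han t)
    · obtain ⟨s, rfl⟩ := Nat.exists_eq_add_of_le h
      obtain ⟨v, rfl⟩ : ∃ v, t = s + v := Nat.exists_eq_add_of_le (by omega)
      calc n.choose (a + s) * a ^ (s + v) = (n.choose (a + s) * a ^ s) * a ^ v := by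
            rw [pow_add]; ring
        _ ≤ (n.choose a * n ^ s) * n ^ v :=
            Nat.mul_le_mul (choose_step n a s) (Nat.pow_le_pow_left han v)
        _ = n.choose a * n ^ (s + v) := by rw [pow_add]; ring
  calc ∑ i ∈ range (a + t + 1), n.choose i * a ^ t
      ≤ ∑ _i ∈ range (a + t + 1), n.choose a * n ^ t := sum_le_sum h
    _ = (a + t + 1) * (n.choose a * n ^ t) := by rw [sum_const, card_range, smul_eq_mul]

theorem V_le_two_pow {n a e t : ℕ} (ha : 0 < a) (he : 1 ≤ e) (hn : n = 2 ^ e * a)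
    (hat : a + t + 1 ≤ n) : V n (a + t) ≤ n * (n.choose a * 2 ^ (e * t)) := by
  have h2a : 2 * a ≤ n := by
    rw [hn]
    refine Nat.mul_le_mul_right _ ?_
    calc 2 = 2 ^ 1 := by norm_num
      _ ≤ 2 ^ e := Nat.pow_le_pow_right (by norm_num) he
  have h1 := V_le t h2a
  have h2 : n ^ t = 2 ^ (e * t) * a ^ t := by rw [hn, mul_pow, ← pow_mul]
  rw [h2] at h1
  have h3 : V n (a + t) * a ^ t ≤ (n * (n.choose a * 2 ^ (e * t))) * a ^ t := by
    refine h1.trans ?_
    calc (a + t + 1) * (n.choose a * (2 ^ (e * t) * a ^ t))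
        ≤ n * (n.choose a * (2 ^ (e * t) * a ^ t)) := Nat.mul_le_mul_right _ hat
      _ = (n * (n.choose a * 2 ^ (e * t))) * a ^ t := by ring
  exact Nat.le_of_mul_le_mul_right h3 (by positivity)

theorem V_le_last {n k t : ℕ} (hk : 1 ≤ k) (hn : n = k * t) : V n t ≤ (4 * k) ^ t := by
  have hk0 : (0 : ℝ) < k := by exact_mod_cast hk
  have h1 : ((1 : ℝ) / k) ^ t * (V n t : ℝ) ≤ (1 + 1 / k) ^ n := by
    unfold V
    push_cast
    rw [mul_sum, add_comm (1 : ℝ), add_pow]
    have h3 : ∀ i ∈ range (t + 1), ((1 : ℝ) / k) ^ t * (n.choose i : ℝ) ≤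
        (1 / k) ^ i * 1 ^ (n - i) * (n.choose i : ℝ) := by
      intro i hi
      rw [mem_range] at hi
      rw [one_pow, mul_one]
      refine mul_le_mul_of_nonneg_right ?_ (Nat.cast_nonneg _)
      refine pow_le_pow_of_le_one (by positivity) ?_ (by omega)
      rw [div_le_one hk0]
      exact_mod_cast hk
    refine (sum_le_sum h3).trans ?_
    by_cases htn : t ≤ n
    · exact sum_le_sum_of_subset_of_nonneg (range_subset_range.2 (by omega))
        (fun i _ _ => by positivity)
    · push Not at htn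
      have h4 : k * t < t := by omega
      nlinarith
  have h2 : ((1 : ℝ) + 1 / k) ^ n ≤ 4 ^ t := by
    have h3 : (1 : ℝ) + 1 / k ≤ Real.exp (1 / k) := by
      have := Real.add_one_le_exp ((1 : ℝ) / k)
      linarith
    calc ((1 : ℝ) + 1 / k) ^ n ≤ (Real.exp (1 / k)) ^ n := by gcongr
      _ = Real.exp (n * (1 / k)) := by rw [← Real.exp_nat_mul]
      _ = Real.exp (t * 1) := by
          congr 1
          rw [hn]
          push_cast
          field_simp
      _ = (Real.exp 1) ^ t := by rw [Real.exp_nat_mul]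
      _ ≤ 4 ^ t := by
          gcongr
          have := Real.exp_one_lt_d9
          linarith
  have h3 : (V n t : ℝ) ≤ (4 * k) ^ t := by
    have h4 := h1.trans h2
    rw [one_div, inv_pow] at h4
    rw [mul_pow, mul_comm]
    rwa [inv_mul_le_iff₀ (by positivity)] at h4
  exact_mod_cast h3

theorem prod_aux (n M : ℕ) (c e : ℕ → ℕ) :
    ∏ j ∈ range (M + 1), n * (c j * 2 ^ e j) =
      n ^ (M + 1) * ((∏ j ∈ range (M + 1), c j) * 2 ^ ∑ j ∈ range (M + 1), e j) := by
  rw [prod_mul_distrib, prod_mul_distrib, prod_const, card_range, prod_pow_eq_pow_sum]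

/-- Radii. -/
def rad (R M N j : ℕ) : ℕ := if j ≤ M then 3 * R * (2 ^ (4 * M - 4 * j) * N) else 0

/-- Gaps. -/
def gap (M N j : ℕ) : ℕ := if j = 0 then 4 * (2 ^ (4 * M + 6) * N) else 2 ^ (4 * M + 7 - 2 * j) * N

theorem two_pow_split {a b c : ℕ} (h : c = a + b) : (2 : ℕ) ^ c = 2 ^ a * 2 ^ b := by
  rw [h, pow_add]

theorem sum_closed (u : ℝ) (k : ℕ) :
    ∑ j ∈ range k, (6 + 4 * ((j : ℝ) + 1)) * (2 * u / 4 ^ (j + 1)) =
      u * (68 / 9 - (8 * k / 3 + 68 / 9) / 4 ^ k) := by
  induction k with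
  | zero => simp
  | succ k ih =>
    rw [sum_range_succ, ih]
    have h4 : (4 : ℝ) ^ k ≠ 0 := by positivity
    push_cast
    rw [pow_succ]
    field_simp
    ring

theorem sum_b (M : ℕ) :
    ∑ j ∈ range (M + 2), (if j = 0 then (3 / 4 : ℝ) else 3 / 4 ^ (j + 1)) < 1 := by
  have h : ∀ k : ℕ, ∑ j ∈ range (k + 1), (if j = 0 then (3 / 4 : ℝ) else 3 / 4 ^ (j + 1)) =
      1 - 1 / 4 ^ (k + 1) := by
    intro k
    induction k with
    | zero => norm_num
    | succ k ih =>
      rw [sum_range_succ, ih, if_neg (by omega)]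
      have h4 : (4 : ℝ) ^ k ≠ 0 := by positivity
      rw [pow_succ, pow_succ, pow_succ]
      field_simp
      ring
  rw [h (M + 1)]
  have : (0 : ℝ) < 1 / 4 ^ (M + 1 + 1) := by positivity
  linarith

theorem gap_real {M N j : ℕ} (hj : 1 ≤ j) (hjM : j ≤ M + 1) :
    (gap M N j : ℝ) = 2 * ((2 ^ (4 * M + 6) * N : ℕ) : ℝ) / 4 ^ j := by
  unfold gap
  rw [if_neg (by omega)]
  have h4 : (4 : ℝ) ^ j = 2 ^ (2 * j) := by rw [pow_mul]; norm_num
  rw [h4, eq_div_iff (by positivity)]
  have h : 2 ^ (4 * M + 7 - 2 * j) * N * 2 ^ (2 * j) = 2 * (2 ^ (4 * M + 6) * N) := by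
    have h5 : (2 : ℕ) ^ (4 * M + 7) = 2 ^ (4 * M + 7 - 2 * j) * 2 ^ (2 * j) :=
      two_pow_split (by omega)
    have h6 : (2 : ℕ) ^ (4 * M + 7) = 2 * 2 ^ (4 * M + 6) := by
      rw [show 4 * M + 7 = (4 * M + 6) + 1 by ring, pow_succ]; ring
    calc 2 ^ (4 * M + 7 - 2 * j) * N * 2 ^ (2 * j)
        = (2 ^ (4 * M + 7 - 2 * j) * 2 ^ (2 * j)) * N := by ring
      _ = 2 * (2 ^ (4 * M + 6) * N) := by rw [← h5, h6]; ring
  exact_mod_cast h

theorem cost_le {M N : ℕ} :
    ∑ j ∈ range (M + 1), (6 + 4 * j) * gap M N j + (3 * M + 5) * gap M N (M + 1) ≤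
      32 * (2 ^ (4 * M + 6) * N) := by
  set u : ℕ := 2 ^ (4 * M + 6) * N with hu
  have h : ((∑ j ∈ range (M + 1), (6 + 4 * j) * gap M N j +
      (3 * M + 5) * gap M N (M + 1) : ℕ) : ℝ) ≤ ((32 * u : ℕ) : ℝ) := by
    push_cast
    rw [sum_range_succ', gap_real (by omega) le_rfl]
    have h0 : (gap M N 0 : ℝ) = 4 * (u : ℝ) := by
      unfold gap
      rw [if_pos rfl]
      push_cast
      rw [hu]
      push_cast
      ring
    have h1 : ∑ k ∈ range M, (6 + 4 * (((k + 1 : ℕ)) : ℝ)) * (gap M N (k + 1) : ℝ) =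
        (u : ℝ) * (68 / 9 - (8 * M / 3 + 68 / 9) / 4 ^ M) := by
      rw [← sum_closed]
      refine sum_congr rfl (fun j hj => ?_)
      rw [mem_range] at hj
      rw [gap_real (by omega) (by omega)]
      push_cast
      rw [hu]
      push_cast
      ring
    rw [h1, h0]
    have hu' : ((2 ^ (4 * M + 6) * N : ℕ) : ℝ) = (u : ℝ) := by rw [hu]
    rw [hu']
    have hu0 : (0 : ℝ) ≤ u := Nat.cast_nonneg _
    have h4 : (0 : ℝ) < 4 ^ M := by positivity
    have h5 : (3 * (M : ℝ) + 5) * (2 * u / 4 ^ (M + 1)) =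
        u * (((3 * (M : ℝ) + 5) / 2) / 4 ^ M) := by
      rw [pow_succ]
      field_simp
      ring
    rw [h5]
    have h6 : ((3 * (M : ℝ) + 5) / 2) / 4 ^ M ≤ (8 * M / 3 + 68 / 9) / 4 ^ M := by
      refine div_le_div_of_nonneg_right ?_ h4.le
      have : (0 : ℝ) ≤ M := Nat.cast_nonneg _
      linarith
    simp only [Nat.cast_zero, mul_zero, add_zero]
    nlinarith
  exact_mod_cast h

/-- The family with its size, before the asymptotics. -/
theorem exists_family {R M N : ℕ} (hR : 2 ≤ R) (hRM : R ≤ 2 ^ M) (hN : 1 ≤ N) :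
    ∃ K : Finset (Fin (3 * R * (2 ^ (4 * M + 6) * N)) → Bool), NoDisj R K ∧
      2 ^ (3 * R * (2 ^ (4 * M + 6) * N)) ≤
        K.card * ((3 * R * (2 ^ (4 * M + 6) * N)) ^ (M + 1) * 2 ^ (32 * (2 ^ (4 * M + 6) * N))) := by
  set u : ℕ := 2 ^ (4 * M + 6) * N with hu
  set n : ℕ := 3 * R * u with hn
  have hu1 : 64 ≤ u := by
    rw [hu]
    calc 64 = 2 ^ 6 * 1 := by norm_num
      _ ≤ 2 ^ (4 * M + 6) * N :=
        Nat.mul_le_mul (Nat.pow_le_pow_right (by norm_num) (by omega)) hN
  obtain ⟨K, κ, h1, h2⟩ := carve_levels (n := n) (rad R M N) (gap M N) (M + 2)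
  have hradM : rad R M N (M + 1) = 0 := by
    unfold rad
    rw [if_neg (by omega)]
  have hgap_le : ∀ j ≤ M + 1, gap M N j ≤ 4 * u := by
    intro j hj
    rcases Nat.eq_zero_or_pos j with h0 | h0
    · subst h0
      unfold gap
      rw [if_pos rfl]
    · have h3 : (gap M N j : ℝ) ≤ ((4 * u : ℕ) : ℝ) := by
        rw [gap_real (by omega) hj]
        push_cast
        have h4 : (1 : ℝ) ≤ 4 ^ j := one_le_pow₀ (by norm_num)
        have h5 : ((2 : ℝ) ^ (4 * M + 6) * N) = (u : ℝ) := by rw [hu]; push_cast; ring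
        rw [h5, div_le_iff₀ (by positivity)]
        have hu0 : (0 : ℝ) ≤ u := Nat.cast_nonneg _
        nlinarith
      exact_mod_cast h3
  have hrad : ∀ j ≤ M, n = 2 ^ (6 + 4 * j) * rad R M N j := by
    intro j hj
    unfold rad
    rw [if_pos hj, hn, hu]
    have h3 : (2 : ℕ) ^ (4 * M + 6) = 2 ^ (6 + 4 * j) * 2 ^ (4 * M - 4 * j) :=
      two_pow_split (by omega)
    rw [h3]
    ring
  have hradpos : ∀ j ≤ M, 0 < rad R M N j := by
    intro j hj
    have := hrad j hj
    rcases Nat.eq_zero_or_pos (rad R M N j) with h0 | h0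
    · rw [h0] at this
      have : 0 < n := by
        rw [hn]
        positivity
      omega
    · exact h0
  have hradle : ∀ j ≤ M, 64 * rad R M N j ≤ n := by
    intro j hj
    rw [hrad j hj]
    refine Nat.mul_le_mul_right _ ?_
    calc 64 = 2 ^ 6 := by norm_num
      _ ≤ 2 ^ (6 + 4 * j) := Nat.pow_le_pow_right (by norm_num) (by omega)
  refine ⟨K, ?_, ?_⟩
  · refine noDisj_of_levels (m := M + 2) (by omega) (by omega) (rad R M N) (gap M N)
      (fun j => if j = 0 then (3 / 4 : ℝ) else 3 / 4 ^ (j + 1)) ?_ ?_ ?_ ?_ (sum_b M) K κ h2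
    · simpa using hradM
    · intro j _
      unfold gap
      split_ifs <;> positivity
    · have h0 : (gap M N 0 : ℝ) = 4 * (u : ℝ) := by
        unfold gap
        rw [if_pos rfl]
        push_cast
        rw [hu]
        push_cast
        ring
      rw [h0, if_pos rfl, hn]
      push_cast
      apply le_of_eq
      ring
    · intro j hj
      have h3 : (n : ℝ) = 2 ^ (6 + 4 * j) * (rad R M N j : ℝ) := by
        exact_mod_cast hrad j (by omega)
      rw [if_neg (by omega), gap_real (by omega) (by omega), ← hu]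
      have h4 : (n : ℝ) = 3 * R * (u : ℝ) := by rw [hn]; push_cast; ring
      have h5 : (rad R M N j : ℝ) = 3 * R * u / 2 ^ (6 + 4 * j) := by
        rw [eq_div_iff (by positivity), ← h4, h3]
        ring
      rw [h5]
      apply le_of_eq
      have h6 : (2 : ℝ) ^ (6 + 4 * j) = 64 * (4 ^ j * 4 ^ j) := by
        rw [pow_add, pow_mul]
        rw [← mul_pow]
        norm_num
      rw [h6]
      have h7 : (4 : ℝ) ^ j ≠ 0 := by positivity
      simp only [pow_succ]
      field_simp
      ring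
  · -- size
    rw [prod_range_succ _ (M + 1), prod_range_succ _ (M + 1), hradM, zero_add, Nat.choose_zero_right,
      mul_one] at h1
    have hV : ∀ j ∈ range (M + 1), V n (rad R M N j + gap M N j) ≤
        n * (n.choose (rad R M N j) * 2 ^ ((6 + 4 * j) * gap M N j)) := by
      intro j hj
      rw [mem_range] at hj
      refine V_le_two_pow (hradpos j (by omega)) (by omega) (hrad j (by omega)) ?_
      have h3 := hradle j (by omega)
      have h4 := hgap_le j (by omega)
      have h5 : 6 * u ≤ n := by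
        rw [hn]
        exact Nat.mul_le_mul_right _ (by omega)
      omega
    have hprod : ∏ j ∈ range (M + 1), V n (rad R M N j + gap M N j) ≤
        n ^ (M + 1) * ((∏ j ∈ range (M + 1), n.choose (rad R M N j)) *
          2 ^ ∑ j ∈ range (M + 1), (6 + 4 * j) * gap M N j) := by
      refine (prod_le_prod' hV).trans ?_
      exact (prod_aux n M (fun j => n.choose (rad R M N j)) (fun j => (6 + 4 * j) * gap M N j)).le
    have hk : n = (3 * R * 2 ^ (2 * M + 1)) * gap M N (M + 1) := by
      unfold gap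
      rw [if_neg (by omega), hn, hu]
      have h3 : (2 : ℕ) ^ (4 * M + 6) = 2 ^ (2 * M + 1) * 2 ^ (4 * M + 7 - 2 * (M + 1)) :=
        two_pow_split (by omega)
      rw [h3]
      ring
    have hlast : V n (gap M N (M + 1)) ≤ 2 ^ ((3 * M + 5) * gap M N (M + 1)) := by
      have h3 := V_le_last (k := 3 * R * 2 ^ (2 * M + 1)) (Nat.one_le_iff_ne_zero.2 (by positivity)) hk
      refine h3.trans ?_
      rw [pow_mul]
      refine Nat.pow_le_pow_left ?_ _
      calc 4 * (3 * R * 2 ^ (2 * M + 1)) = 12 * R * 2 ^ (2 * M + 1) := by ring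
        _ ≤ 16 * 2 ^ M * 2 ^ (2 * M + 1) :=
          Nat.mul_le_mul_right _ (Nat.mul_le_mul (by norm_num) hRM)
        _ = 2 ^ (3 * M + 5) := by
          have h16 : (16 : ℕ) = 2 ^ 4 := by norm_num
          rw [h16, ← pow_add, ← pow_add]
          congr 1
          omega
    set P := ∏ j ∈ range (M + 1), n.choose (rad R M N j) with hP
    have hPpos : 0 < P := by
      rw [hP]
      refine prod_pos (fun j hj => ?_)
      rw [mem_range] at hj
      refine Nat.choose_pos ?_
      have := hradle j (by omega)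
      omega
    have hfin : P * 2 ^ n ≤ P * (K.card * (n ^ (M + 1) * 2 ^ (32 * u))) := by
      calc P * 2 ^ n = 2 ^ n * P := by ring
        _ ≤ K.card * ((∏ j ∈ range (M + 1), V n (rad R M N j + gap M N j)) *
            V n (gap M N (M + 1))) := h1
        _ ≤ K.card * ((n ^ (M + 1) * (P * 2 ^ ∑ j ∈ range (M + 1), (6 + 4 * j) * gap M N j)) *
            2 ^ ((3 * M + 5) * gap M N (M + 1))) :=
            Nat.mul_le_mul_left _ (Nat.mul_le_mul hprod hlast)
        _ = P * (K.card * (n ^ (M + 1) * 2 ^ (∑ j ∈ range (M + 1), (6 + 4 * j) * gap M N j +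
            (3 * M + 5) * gap M N (M + 1)))) := by
            rw [pow_add]
            ring
        _ ≤ P * (K.card * (n ^ (M + 1) * 2 ^ (32 * u))) := by
            refine Nat.mul_le_mul_left _ (Nat.mul_le_mul_left _ (Nat.mul_le_mul_left _ ?_))
            exact Nat.pow_le_pow_right (by norm_num) cost_le
    exact Nat.le_of_mul_le_mul_left hfin hPpos

end Pool.Agent.H618R3.FF
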