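import Pool.Agent.H618R3.FF.Asym

set_option autoImplicit false

/-! The upper bound: combinatorial part. -/

namespace Pool.Agent.H618R3.FF

open Finset Filter Topology

/-- Slices: a family without `t` disjoint differences inside the range of `e`. -/
theorem slices {n a t : ℕ} (ht : 1 ≤ t) (e : Fin a → Fin n) (he : Function.Injective e)
    (B : Finset (Fin n → Bool))
    (h : ∀ x ∈ B, ∀ y : Fin t → Fin n → Bool, (∀ j, y j ∈ B) → (∀ j, y j ≠ x) →
      (∀ j, ∀ i ∈ Df x (y j), ∃ k, e k = i) →
      ¬ Pairwise (fun j j' => Disjoint (Df x (y j)) (Df x (y j')))) :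
    B.card ≤ 2 ^ (n - a) * gff (t + 1) a := by
  classical
  set T : Finset (Fin n) := univ.image e with hT
  have hTc : T.card = a := by
    rw [hT, card_image_of_injective _ he]
    simp
  let ρ : (Fin n → Bool) → ({i : Fin n // i ∉ T} → Bool) := fun x i => x i.1
  have hcard : (univ : Finset ({i : Fin n // i ∉ T} → Bool)).card = 2 ^ (n - a) := by
    rw [card_univ, Fintype.card_fun, Fintype.card_bool]
    congr 1
    rw [Fintype.card_subtype_compl, Fintype.card_fin]
    congr 1
    rw [← hTc]
    simp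
  rw [card_eq_sum_card_fiberwise (f := ρ) (t := univ) (fun _ _ => by simp), ← hcard,
    ← smul_eq_mul]
  refine sum_le_card_nsmul _ _ _ (fun z _ => ?_)
  set Bz := B.filter (fun x => ρ x = z) with hBz
  have hagree : ∀ x ∈ Bz, ∀ y ∈ Bz, ∀ i ∈ Df x y, ∃ k, e k = i := by
    intro x hx y hy i hi
    by_contra hcon
    have hiT : i ∉ T := by
      intro hiT
      obtain ⟨k, -, hk⟩ := mem_image.1 hiT
      exact hcon ⟨k, hk⟩
    have h1 := congrFun ((mem_filter.1 hx).2.trans (mem_filter.1 hy).2.symm) ⟨i, hiT⟩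
    exact (mem_Df.1 hi) h1
  have hinj : Set.InjOn (fun (x : Fin n → Bool) (k : Fin a) => x (e k)) Bz := by
    intro x hx y hy hxy
    rw [← Df_eq_empty]
    rw [eq_empty_iff_forall_notMem]
    intro i hi
    obtain ⟨k, rfl⟩ := hagree x hx y hy i hi
    exact (mem_Df.1 hi) (congrFun hxy k)
  rw [← card_image_of_injOn hinj]
  refine le_gff ?_
  rw [focalFree_iff (by omega)]
  change NoDisj t _
  intro f' hf' y' hy' hne hpw
  obtain ⟨f, hf, rfl⟩ := mem_image.1 hf'
  choose y hy hyy using fun j => mem_image.1 (hy' j)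
  refine h f (mem_filter.1 hf).1 y (fun j => (mem_filter.1 (hy j)).1) (fun j hj => hne j ?_)
    (fun j => hagree f hf (y j) (hy j)) ?_
  · rw [← hyy j, hj]
  · intro j j' hjj
    have h2 : Disjoint (Df _ (y' j)) (Df _ (y' j')) := hpw hjj
    rw [disjoint_left] at h2 ⊢
    intro i hi hi'
    obtain ⟨k, rfl⟩ := hagree f hf (y j) (hy j) i hi
    refine h2 (a := k) ?_ ?_
    · rw [mem_Df, ← hyy j]
      exact mem_Df.1 hi
    · rw [mem_Df, ← hyy j']
      exact mem_Df.1 hi'

/-- Restriction. -/
theorem gff_restrict {t : ℕ} (ht : 1 ≤ t) {n a : ℕ} (han : a ≤ n) :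
    gff (t + 1) n ≤ 2 ^ (n - a) * gff (t + 1) a := by
  refine gff_le (by omega) (fun F hF => ?_)
  refine slices ht (Fin.castLE han) (Fin.castLE_injective han) F ?_
  intro x hx y hy hne _
  exact hF x hx y hy hne

/-- Subadditivity. -/
theorem gff_add {t₁ t₂ : ℕ} (h₁ : 1 ≤ t₁) (h₂ : 1 ≤ t₂) (a₁ a₂ : ℕ) :
    gff (t₁ + t₂ + 1) (a₁ + a₂) ≤ 2 ^ a₂ * gff (t₁ + 1) a₁ + 2 ^ a₁ * gff (t₂ + 1) a₂ := by
  classical
  refine gff_le (by omega) (fun F hF => ?_)
  simp only [Nat.add_sub_cancel] at hF
  set G₁ : (Fin (a₁ + a₂) → Bool) → Prop := fun x =>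
    ∃ y : Fin t₁ → Fin (a₁ + a₂) → Bool, (∀ j, y j ∈ F) ∧ (∀ j, y j ≠ x) ∧
      (∀ j, ∀ i ∈ Df x (y j), ∃ k, Fin.castAdd a₂ k = i) ∧
      Pairwise (fun j j' => Disjoint (Df x (y j)) (Df x (y j'))) with hG₁
  set G₂ : (Fin (a₁ + a₂) → Bool) → Prop := fun x =>
    ∃ y : Fin t₂ → Fin (a₁ + a₂) → Bool, (∀ j, y j ∈ F) ∧ (∀ j, y j ≠ x) ∧
      (∀ j, ∀ i ∈ Df x (y j), ∃ k, Fin.natAdd a₁ k = i) ∧
      Pairwise (fun j j' => Disjoint (Df x (y j)) (Df x (y j'))) with hG₂
  have hcov : F ⊆ F.filter (fun x => ¬ G₁ x) ∪ F.filter (fun x => ¬ G₂ x) := by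
    intro x hx
    rw [mem_union, mem_filter, mem_filter]
    by_contra hcon
    push Not at hcon
    obtain ⟨y, hy1, hy2, hy3, hy4⟩ := hcon.1 hx
    obtain ⟨z, hz1, hz2, hz3, hz4⟩ := hcon.2 hx
    refine hF x hx (Fin.append y z) ?_ ?_ ?_
    · intro j
      refine Fin.addCases (fun i => ?_) (fun i => ?_) j
      · rw [Fin.append_left]
        exact hy1 i
      · rw [Fin.append_right]
        exact hz1 i
    · intro j
      refine Fin.addCases (fun i => ?_) (fun i => ?_) j
      · rw [Fin.append_left]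
        exact hy2 i
      · rw [Fin.append_right]
        exact hz2 i
    · have hyz : ∀ i i', Disjoint (Df x (y i)) (Df x (z i')) := by
        intro i i'
        rw [disjoint_left]
        intro k hk hk'
        obtain ⟨u, hu⟩ := hy3 i k hk
        obtain ⟨v, hv⟩ := hz3 i' k hk'
        have h1 : (k : ℕ) < a₁ := by
          rw [← hu]
          simp
        have h2 : a₁ ≤ (k : ℕ) := by
          rw [← hv]
          simp
        omega
      intro j j'
      refine Fin.addCases (fun i => ?_) (fun i => ?_) j <;>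
        refine Fin.addCases (fun i' => ?_) (fun i' => ?_) j'
      · intro hne
        rw [Fin.append_left, Fin.append_left]
        exact hy4 (fun h => hne (by rw [h]))
      · intro _
        rw [Fin.append_left, Fin.append_right]
        exact hyz i i'
      · intro _
        rw [Fin.append_left, Fin.append_right]
        exact (hyz i' i).symm
      · intro hne
        rw [Fin.append_right, Fin.append_right]
        exact hz4 (fun h => hne (by rw [h]))
  have hB₁ : (F.filter (fun x => ¬ G₁ x)).card ≤ 2 ^ (a₁ + a₂ - a₁) * gff (t₁ + 1) a₁ := by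
    refine slices h₁ (Fin.castAdd a₂) (Fin.castAdd_injective a₁ a₂) _ ?_
    intro x hx y hy hne hT hpw
    exact (mem_filter.1 hx).2 ⟨y, fun j => (mem_filter.1 (hy j)).1, hne, hT, hpw⟩
  have hB₂ : (F.filter (fun x => ¬ G₂ x)).card ≤ 2 ^ (a₁ + a₂ - a₂) * gff (t₂ + 1) a₂ := by
    refine slices h₂ (Fin.natAdd a₁) (Fin.natAdd_injective a₂ a₁) _ ?_
    intro x hx y hy hne hT hpw
    exact (mem_filter.1 hx).2 ⟨y, fun j => (mem_filter.1 (hy j)).1, hne, hT, hpw⟩
  have e1 : a₁ + a₂ - a₁ = a₂ := by omega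
  have e2 : a₁ + a₂ - a₂ = a₁ := by omega
  rw [e1] at hB₁
  rw [e2] at hB₂
  exact ((card_le_card hcov).trans (card_union_le _ _)).trans (Nat.add_le_add hB₁ hB₂)

theorem gff_two_le (n : ℕ) : gff 2 n ≤ 1 := by
  refine gff_le le_rfl (fun F hF => ?_)
  rw [card_le_one]
  intro x hx y hy
  by_contra hne
  refine hF x hx (fun _ => y) (fun _ => hy) (fun _ h => hne h.symm) ?_
  intro j j' hjj
  exact absurd (Subsingleton.elim (α := Fin 1) j j') hjj

/-- The Johnson bound. -/
theorem johnson {n w e : ℕ} (A : Finset (Fin n → Bool)) (c : Fin n → Bool)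
    (hA : ∀ x ∈ A, (Df x c).card = w)
    (hd : ∀ x ∈ A, ∀ y ∈ A, x ≠ y → e ≤ (Df x y).card) :
    (A.card : ℝ) * (2 * w ^ 2 - 2 * w * n + e * n) ≤ e * n := by
  classical
  set f : (Fin n → Bool) → Fin n → ℝ := fun x i => if i ∈ Df x c then 1 else 0 with hf
  have hint : ∀ x y : Fin n → Bool, ∑ i, f x i * f y i = ((Df x c ∩ Df y c).card : ℝ) := by
    intro x y
    have h1 : ∀ i, f x i * f y i = if i ∈ Df x c ∩ Df y c then 1 else 0 := by
      intro i
      rw [hf]
      simp only [mem_inter]
      by_cases h1 : i ∈ Df x c <;> by_cases h2 : i ∈ Df y c <;> simp [h1, h2]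
    rw [sum_congr rfl (fun i _ => h1 i), sum_boole, filter_mem_eq_inter, univ_inter]
  have hsum : ∀ x : Fin n → Bool, ∑ i, f x i = ((Df x c).card : ℝ) := by
    intro x
    rw [hf]
    simp
  set S : ℝ := ∑ x ∈ A, ∑ y ∈ A, ((Df x c ∩ Df y c).card : ℝ) with hS
  have hS1 : S = ∑ i, (∑ x ∈ A, f x i) ^ 2 := by
    rw [hS]
    have h1 : ∀ i, (∑ x ∈ A, f x i) ^ 2 = ∑ x ∈ A, ∑ y ∈ A, f x i * f y i := by
      intro i
      rw [sq, sum_mul_sum]
    symm
    rw [sum_congr rfl (fun i _ => h1 i), sum_comm]
    refine sum_congr rfl (fun x _ => ?_)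
    rw [sum_comm]
    refine sum_congr rfl (fun y _ => ?_)
    rw [hint]
  have hS2 : (∑ i, ∑ x ∈ A, f x i) ^ 2 ≤ (n : ℝ) * S := by
    rw [hS1]
    have := sq_sum_le_card_mul_sum_sq (s := (univ : Finset (Fin n))) (f := fun i => ∑ x ∈ A, f x i)
    simpa using this
  have hS3 : ∑ i, ∑ x ∈ A, f x i = (A.card : ℝ) * w := by
    rw [sum_comm, card_eq_sum_ones]
    push_cast
    rw [sum_mul]
    refine sum_congr rfl (fun x hx => ?_)
    rw [hsum, hA x hx, one_mul]
  have hsym : ∀ x y : Fin n → Bool, (Df x y).card + 2 * (Df x c ∩ Df y c).card =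
      (Df x c).card + (Df y c).card := by
    intro x y
    have h1 : Df x y = (Df x c \ Df y c) ∪ (Df y c \ Df x c) := by
      ext i
      simp only [mem_union, Finset.mem_sdiff, mem_Df]
      cases x i <;> cases y i <;> cases c i <;> simp
    have h2 : Disjoint (Df x c \ Df y c) (Df y c \ Df x c) := by
      rw [disjoint_left]
      intro i hi hi'
      exact (Finset.mem_sdiff.1 hi').2 (Finset.mem_sdiff.1 hi).1
    have h3 := card_sdiff_add_card_inter (Df x c) (Df y c)
    have h4 := card_sdiff_add_card_inter (Df y c) (Df x c)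
    rw [inter_comm] at h4
    rw [h1, card_union_of_disjoint h2]
    omega
  have hS4 : 2 * S ≤ (A.card : ℝ) ^ 2 * (2 * w - e) + A.card * e := by
    have h1 : ∀ x ∈ A, ∀ y ∈ A, 2 * ((Df x c ∩ Df y c).card : ℝ) ≤
        (2 * w - e) + (if x = y then (e : ℝ) else 0) := by
      intro x hx y hy
      have h2 := hsym x y
      rw [hA x hx, hA y hy] at h2
      have h2' : ((Df x y).card : ℝ) + 2 * ((Df x c ∩ Df y c).card : ℝ) = w + w := by
        exact_mod_cast h2
      by_cases hxy : x = y
      · rw [if_pos hxy]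
        have : (0 : ℝ) ≤ ((Df x y).card : ℝ) := Nat.cast_nonneg _
        linarith
      · rw [if_neg hxy]
        have h3 : (e : ℝ) ≤ ((Df x y).card : ℝ) := by exact_mod_cast hd x hx y hy hxy
        linarith
    calc 2 * S = ∑ x ∈ A, ∑ y ∈ A, 2 * ((Df x c ∩ Df y c).card : ℝ) := by
          rw [hS, mul_sum]
          refine sum_congr rfl (fun x _ => ?_)
          rw [mul_sum]
      _ ≤ ∑ x ∈ A, ∑ y ∈ A, ((2 * w - e) + (if x = y then (e : ℝ) else 0)) :=
          sum_le_sum (fun x hx => sum_le_sum (fun y hy => h1 x hx y hy))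
      _ = ∑ x ∈ A, ((A.card : ℝ) * (2 * w - e) + e) := by
          refine sum_congr rfl (fun x hx => ?_)
          rw [sum_add_distrib, sum_const, nsmul_eq_mul, sum_ite_eq, if_pos hx]
      _ = (A.card : ℝ) ^ 2 * (2 * w - e) + A.card * e := by
          rw [sum_const, nsmul_eq_mul]
          ring
  rw [hS3] at hS2
  have hn : (0 : ℝ) ≤ n := Nat.cast_nonneg _
  have hm : (0 : ℝ) ≤ (A.card : ℝ) := Nat.cast_nonneg _
  have he : (0 : ℝ) ≤ e := Nat.cast_nonneg _
  rcases hm.eq_or_lt with h0 | h0
  · rw [← h0]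
    have : 0 ≤ (e : ℝ) * n := by positivity
    linarith
  · have h5 : (A.card : ℝ) * ((A.card : ℝ) * (2 * w ^ 2 - 2 * w * n + e * n)) ≤
        (A.card : ℝ) * (e * n) := by nlinarith
    exact le_of_mul_le_mul_left h5 h0

/-- The Elias-Bassalygo argument. -/
theorem elias {n w M : ℕ} (F : Finset (Fin n → Bool))
    (h : ∀ c : Fin n → Bool, (F.filter (fun x => (Df x c).card = w)).card ≤ M) :
    F.card * n.choose w ≤ M * 2 ^ n := by
  rw [← sum_swap F (fun k => k = w) (n.choose w) (fun x => card_sphere x w)]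
  calc ∑ c : Fin n → Bool, (F.filter (fun x => (Df x c).card = w)).card
      ≤ ∑ _c : Fin n → Bool, M := sum_le_sum (fun c _ => h c)
    _ = M * 2 ^ n := by
      rw [sum_const, smul_eq_mul, card_univ, Fintype.card_fun, Fintype.card_bool, Fintype.card_fin,
        mul_comm]

/-- No difference of `x` lies in `H`. -/
def Own {n : ℕ} (F : Finset (Fin n → Bool)) (x : Fin n → Bool) (H : Finset (Fin n)) : Prop :=
  ∀ y ∈ F, y ≠ x → ¬ Df x y ⊆ H

theorem own_count {n : ℕ} (F : Finset (Fin n → Bool)) (H : Finset (Fin n))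
    [DecidablePred fun x => Own F x H] :
    (F.filter (fun x => Own F x H)).card ≤ 2 ^ (n - H.card) := by
  classical
  let ρ : (Fin n → Bool) → ({i : Fin n // i ∉ H} → Bool) := fun x i => x i.1
  have hcard : (univ : Finset ({i : Fin n // i ∉ H} → Bool)).card = 2 ^ (n - H.card) := by
    rw [card_univ, Fintype.card_fun, Fintype.card_bool]
    congr 1
    rw [Fintype.card_subtype_compl, Fintype.card_fin]
    congr 1
    simp
  rw [← hcard]
  refine card_le_card_of_injOn ρ (fun _ _ => by simp) ?_
  intro x hx y hy hxy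
  by_contra hne
  have hx' := mem_filter.1 (mem_coe.1 hx)
  have hy' := mem_filter.1 (mem_coe.1 hy)
  refine hx'.2 y hy'.1 (Ne.symm hne) ?_
  intro i hi
  by_contra hiH
  exact (mem_Df.1 hi) (congrFun hxy ⟨i, hiH⟩)

theorem close_count {n e h : ℕ} (heh : e + 2 * h = n) (F : Finset (Fin n → Bool))
    (hF : NoDisj 3 F) (F₂ : Finset (Fin n → Bool)) (hsub : F₂ ⊆ F)
    (hclose : ∀ x ∈ F₂, ∃ y ∈ F, y ≠ x ∧ (Df x y).card ≤ e) :
    F₂.card * (2 * h).choose h ≤ 2 * (n.choose h * 2 ^ (n - h)) := by
  classical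
  have key : ∀ x ∈ F₂, (2 * h).choose h ≤
      2 * ((powersetCard h (univ : Finset (Fin n))).filter (fun H => Own F x H)).card := by
    intro x hx
    obtain ⟨y, hy, hyx, hye⟩ := hclose x hx
    obtain ⟨E, hE, hEc⟩ := exists_superset_card_eq hye (by simp; omega)
    set U := univ \ E with hU
    have hUc : U.card = 2 * h := by
      rw [hU, card_sdiff_of_subset (subset_univ _), hEc, card_univ, Fintype.card_fin]
      omega
    have h1 : powersetCard h U ⊆ (powersetCard h U).filter (fun H => Own F x H) ∪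
        (powersetCard h U).filter (fun H => Own F x (U \ H)) := by
      intro H hH
      rw [mem_union, mem_filter, mem_filter]
      by_contra hcon
      push Not at hcon
      have h2 := hcon.1 hH
      have h3 := hcon.2 hH
      unfold Own at h2 h3
      push Not at h2 h3
      obtain ⟨y1, hy1, hy1x, hy1H⟩ := h2
      obtain ⟨y2, hy2, hy2x, hy2H⟩ := h3
      have hHU := (mem_powersetCard.1 hH).1
      have d01 : Disjoint (Df x y) (Df x y1) := by
        refine Disjoint.mono hE (hy1H.trans hHU) ?_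
        rw [hU]
        exact disjoint_sdiff
      have d02 : Disjoint (Df x y) (Df x y2) := by
        refine Disjoint.mono hE (hy2H.trans sdiff_subset) ?_
        rw [hU]
        exact disjoint_sdiff
      have d12 : Disjoint (Df x y1) (Df x y2) :=
        Disjoint.mono hy1H hy2H disjoint_sdiff
      refine hF x (hsub hx) ![y, y1, y2] ?_ ?_ ?_
      · intro j
        fin_cases j
        · exact hy
        · exact hy1
        · exact hy2
      · intro j
        fin_cases j
        · exact hyx
        · exact hy1x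
        · exact hy2x
      · intro j j' hjj
        fin_cases j <;> fin_cases j'
        · exact absurd rfl hjj
        · exact d01
        · exact d02
        · exact d01.symm
        · exact absurd rfl hjj
        · exact d12
        · exact d02.symm
        · exact d12.symm
        · exact absurd rfl hjj
    have h4 : ((powersetCard h U).filter (fun H => Own F x (U \ H))).card ≤
        ((powersetCard h U).filter (fun H => Own F x H)).card := by
      refine card_le_card_of_injOn (fun H => U \ H) ?_ ?_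
      · intro H hH
        have hH' := mem_filter.1 (mem_coe.1 hH)
        have h5 := mem_powersetCard.1 hH'.1
        refine mem_coe.2 (mem_filter.2 ⟨mem_powersetCard.2 ⟨sdiff_subset, ?_⟩, hH'.2⟩)
        rw [card_sdiff_of_subset h5.1, h5.2, hUc]
        omega
      · intro H hH H' hH' heq
        have h5 := (mem_powersetCard.1 (mem_filter.1 (mem_coe.1 hH)).1).1
        have h6 := (mem_powersetCard.1 (mem_filter.1 (mem_coe.1 hH')).1).1
        have heq' : U \ H = U \ H' := heq
        rw [← Finset.sdiff_sdiff_eq_self h5, heq', Finset.sdiff_sdiff_eq_self h6]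
    have h5 : (powersetCard h U).filter (fun H => Own F x H) ⊆
        (powersetCard h (univ : Finset (Fin n))).filter (fun H => Own F x H) :=
      filter_subset_filter _ (powersetCard_mono (subset_univ _))
    have h6 := card_le_card h1
    rw [card_powersetCard, hUc] at h6
    have h7 := card_union_le ((powersetCard h U).filter (fun H => Own F x H))
      ((powersetCard h U).filter (fun H => Own F x (U \ H)))
    have h8 := card_le_card h5
    omega
  have h1 : F₂.card * (2 * h).choose h ≤ ∑ x ∈ F₂,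
      2 * ((powersetCard h (univ : Finset (Fin n))).filter (fun H => Own F x H)).card := by
    rw [← smul_eq_mul]
    exact card_nsmul_le_sum _ _ _ key
  have h2 : ∑ x ∈ F₂,
      ((powersetCard h (univ : Finset (Fin n))).filter (fun H => Own F x H)).card =
      ∑ H ∈ powersetCard h (univ : Finset (Fin n)), (F₂.filter (fun x => Own F x H)).card := by
    have e1 : ∀ x ∈ F₂,
        ((powersetCard h (univ : Finset (Fin n))).filter (fun H => Own F x H)).card =
        ∑ H ∈ powersetCard h (univ : Finset (Fin n)), if Own F x H then 1 else 0 :=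
      fun x _ => by rw [card_filter]
    rw [sum_congr rfl e1, sum_comm]
    refine sum_congr rfl (fun H _ => ?_)
    rw [card_filter]
  have h3 : ∑ H ∈ powersetCard h (univ : Finset (Fin n)), (F₂.filter (fun x => Own F x H)).card ≤
      n.choose h * 2 ^ (n - h) := by
    have e1 : ∀ H ∈ powersetCard h (univ : Finset (Fin n)),
        (F₂.filter (fun x => Own F x H)).card ≤ 2 ^ (n - h) := by
      intro H hH
      rw [← (mem_powersetCard.1 hH).2]
      exact (card_le_card (filter_subset_filter _ hsub)).trans (own_count F H)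
    refine (sum_le_card_nsmul _ _ _ e1).trans ?_
    rw [card_powersetCard, card_univ, Fintype.card_fin, smul_eq_mul]
  rw [← mul_sum, h2] at h1
  exact h1.trans (Nat.mul_le_mul_left _ h3)

end Pool.Agent.H618R3.FF
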