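import Pool.Agent.H618R3.FF.Upper

set_option autoImplicit false

/-! The upper bound: numerical part. -/

namespace Pool.Agent.H618R3.FF

open Finset Filter Topology

theorem choose_term_le {n k : ℕ} (hk : k ≤ n) :
    n.choose k * (k ^ k * (n - k) ^ (n - k)) ≤ n ^ n := by
  have h1 : n ^ n = (k + (n - k)) ^ n := by
    congr 1
    omega
  rw [h1, add_pow]
  have h2 := single_le_sum (f := fun m => k ^ m * (n - k) ^ (n - m) * n.choose m)
    (s := range (n + 1)) (fun _ _ => Nat.zero_le _) (mem_range.2 (Nat.lt_succ_of_le hk))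
  refine le_trans (le_of_eq ?_) h2
  ring

theorem choose_term_ge {n k : ℕ} (hk : k ≤ n) :
    n ^ n ≤ (n + 1) * (n.choose k * (k ^ k * (n - k) ^ (n - k))) := by
  set t : ℕ → ℕ := fun m => k ^ m * (n - k) ^ (n - m) * n.choose m with ht
  have hrec : ∀ m < n, t (m + 1) * ((m + 1) * (n - k)) = t m * (k * (n - m)) := by
    intro m hm
    have h1 := Nat.choose_succ_right_eq n m
    have h2 : (n - k) ^ (n - m) = (n - k) ^ (n - (m + 1)) * (n - k) := by
      rw [← pow_succ]
      congr 1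
      omega
    simp only [ht]
    rw [h2, pow_succ]
    calc k ^ m * k * (n - k) ^ (n - (m + 1)) * n.choose (m + 1) * ((m + 1) * (n - k))
        = k ^ m * k * (n - k) ^ (n - (m + 1)) * (n - k) * (n.choose (m + 1) * (m + 1)) := by ring
      _ = k ^ m * k * (n - k) ^ (n - (m + 1)) * (n - k) * (n.choose m * (n - m)) := by rw [h1]
      _ = _ := by ring
  have hup : ∀ m, m < k → t m ≤ t (m + 1) := by
    intro m hm
    have h1 := hrec m (by omega)
    have h2 : (m + 1) * (n - k) ≤ k * (n - m) := Nat.mul_le_mul (by omega) (by omega)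
    have h3 : 0 < k * (n - m) := Nat.mul_pos (by omega) (by omega)
    have h4 : t m * (k * (n - m)) ≤ t (m + 1) * (k * (n - m)) := by
      rw [← h1]
      exact Nat.mul_le_mul_left _ h2
    exact Nat.le_of_mul_le_mul_right h4 h3
  have hdown : ∀ m, k ≤ m → m < n → t (m + 1) ≤ t m := by
    intro m hm hmn
    have h1 := hrec m hmn
    have h2 : k * (n - m) ≤ (m + 1) * (n - k) := Nat.mul_le_mul (by omega) (by omega)
    have h3 : 0 < (m + 1) * (n - k) := Nat.mul_pos (by omega) (by omega)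
    have h4 : t (m + 1) * ((m + 1) * (n - k)) ≤ t m * ((m + 1) * (n - k)) := by
      rw [h1]
      exact Nat.mul_le_mul_left _ h2
    exact Nat.le_of_mul_le_mul_right h4 h3
  have hle1 : ∀ d, d ≤ k → t (k - d) ≤ t k := by
    intro d
    induction d with
    | zero => intro _; exact le_rfl
    | succ d ih =>
      intro hd
      have h1 := hup (k - (d + 1)) (by omega)
      have h2 : k - (d + 1) + 1 = k - d := by omega
      rw [h2] at h1
      exact h1.trans (ih (by omega))
  have hle2 : ∀ d, k + d ≤ n → t (k + d) ≤ t k := by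
    intro d
    induction d with
    | zero => intro _; exact le_rfl
    | succ d ih =>
      intro hd
      exact (hdown (k + d) (by omega) (by omega)).trans (ih (by omega))
  have hall : ∀ m ∈ range (n + 1), t m ≤ t k := by
    intro m hm
    rw [mem_range] at hm
    rcases le_total m k with h | h
    · have := hle1 (k - m) (by omega)
      rwa [Nat.sub_sub_self h] at this
    · have := hle2 (m - k) (by omega)
      rwa [Nat.add_sub_cancel' h] at this
  have h1 : n ^ n = (k + (n - k)) ^ n := by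
    congr 1
    omega
  rw [h1, add_pow]
  refine (sum_le_card_nsmul _ _ _ hall).trans (le_of_eq ?_)
  rw [card_range, smul_eq_mul]
  simp only [ht]
  ring

theorem pow_scale (a N : ℕ) : (a * N) ^ (a * N) = (a ^ a) ^ N * N ^ (a * N) := by
  rw [mul_pow, pow_mul]

theorem scale_prod {a b N : ℕ} (hb : b ≤ a) :
    (b * N) ^ (b * N) * (a * N - b * N) ^ (a * N - b * N) =
      (b ^ b * (a - b) ^ (a - b)) ^ N * N ^ (a * N) := by
  have h1 : a * N - b * N = (a - b) * N := by rw [Nat.sub_mul]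
  have h2 : a * N = b * N + (a - b) * N := by
    rw [← Nat.add_mul]
    congr 1
    omega
  rw [h1, pow_scale, pow_scale, mul_pow, h2, pow_add]
  ring

theorem far_num {a b s N F M : ℕ} (hN : 1 ≤ N) (hb : b ≤ a) (ha : 1 ≤ a)
    (key : 2 ^ a * (b ^ b * (a - b) ^ (a - b)) ≤ 2 ^ s * a ^ a)
    (h : F * (a * N).choose (b * N) ≤ M * 2 ^ (a * N)) : F ≤ M * (a * N + 1) * 2 ^ (s * N) := by
  have hbN : b * N ≤ a * N := Nat.mul_le_mul_right _ hb
  have h1 := choose_term_ge hbN
  rw [scale_prod hb, pow_scale] at h1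
  set P := a ^ a with hP
  set Q := b ^ b * (a - b) ^ (a - b) with hQ
  set Z := N ^ (a * N) with hZ
  have hZpos : 0 < Z := by
    rw [hZ]
    positivity
  have hPpos : 0 < P := by
    rw [hP]
    positivity
  have h2 : F * (P ^ N * Z) ≤ (M * (a * N + 1) * 2 ^ (s * N)) * (P ^ N * Z) := by
    calc F * (P ^ N * Z) ≤ F * ((a * N + 1) * ((a * N).choose (b * N) * (Q ^ N * Z))) :=
          Nat.mul_le_mul_left _ h1
      _ = (F * (a * N).choose (b * N)) * ((a * N + 1) * (Q ^ N * Z)) := by ring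
      _ ≤ (M * 2 ^ (a * N)) * ((a * N + 1) * (Q ^ N * Z)) := Nat.mul_le_mul_right _ h
      _ = M * (a * N + 1) * ((2 ^ a * Q) ^ N) * Z := by
          rw [mul_pow, ← pow_mul]
          ring
      _ ≤ M * (a * N + 1) * ((2 ^ s * P) ^ N) * Z :=
          Nat.mul_le_mul_right _ (Nat.mul_le_mul_left _ (Nat.pow_le_pow_left key N))
      _ = (M * (a * N + 1) * 2 ^ (s * N)) * (P ^ N * Z) := by
          rw [mul_pow, ← pow_mul]
          ring
  exact Nat.le_of_mul_le_mul_right h2 (by positivity)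

theorem close_num {a b s N F : ℕ} (hN : 1 ≤ N) (hb : b ≤ a) (hb1 : 1 ≤ b) (hab : 1 ≤ a - b)
    (key : a ^ a * 2 ^ (a - b) ≤ 2 ^ s * (2 ^ (2 * b) * (b ^ b * (a - b) ^ (a - b))))
    (h : F * (2 * (b * N)).choose (b * N) ≤
      2 * ((a * N).choose (b * N) * 2 ^ (a * N - b * N))) :
    F ≤ 2 * (2 * (b * N) + 1) * 2 ^ (s * N) := by
  have hbN : b * N ≤ a * N := Nat.mul_le_mul_right _ hb
  have h1 := choose_term_le hbN
  rw [scale_prod hb, pow_scale] at h1
  have h0 : 2 ^ (2 * b * N) ≤ (2 * (b * N) + 1) * (2 * (b * N)).choose (b * N) := by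
    have h2 := choose_term_ge (n := 2 * (b * N)) (k := b * N) (by omega)
    have h3 : 2 * (b * N) - b * N = b * N := by omega
    rw [h3] at h2
    have h4 : (2 * (b * N)) ^ (2 * (b * N)) =
        2 ^ (2 * b * N) * ((b * N) ^ (b * N) * (b * N) ^ (b * N)) := by
      rw [mul_pow, ← pow_add]
      congr 1
      · congr 1
        ring
      · congr 1
        ring
    rw [h4] at h2
    have h5 : 0 < (b * N) ^ (b * N) * (b * N) ^ (b * N) := by positivity
    refine Nat.le_of_mul_le_mul_right (h2.trans (le_of_eq ?_)) h5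
    ring
  have hsub : a * N - b * N = (a - b) * N := by rw [Nat.sub_mul]
  rw [hsub] at h
  have hQ0 : 0 < b ^ b * (a - b) ^ (a - b) := by positivity
  set P := a ^ a with hP
  set Q := b ^ b * (a - b) ^ (a - b) with hQ
  set Z := N ^ (a * N) with hZ
  have hZpos : 0 < Z := by
    rw [hZ]
    positivity
  set c := (2 * (b * N)).choose (b * N) with hc
  have h2 : F * (2 ^ (2 * b * N) * (Q ^ N * Z)) ≤
      (2 * (2 * (b * N) + 1) * 2 ^ (s * N)) * (2 ^ (2 * b * N) * (Q ^ N * Z)) := by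
    calc F * (2 ^ (2 * b * N) * (Q ^ N * Z)) ≤ F * (((2 * (b * N) + 1) * c) * (Q ^ N * Z)) :=
          Nat.mul_le_mul_left _ (Nat.mul_le_mul_right _ h0)
      _ = (F * c) * ((2 * (b * N) + 1) * (Q ^ N * Z)) := by ring
      _ ≤ (2 * ((a * N).choose (b * N) * 2 ^ ((a - b) * N))) *
          ((2 * (b * N) + 1) * (Q ^ N * Z)) := Nat.mul_le_mul_right _ h
      _ = 2 * (2 * (b * N) + 1) * 2 ^ ((a - b) * N) * ((a * N).choose (b * N) * (Q ^ N * Z)) := by
          ring
      _ ≤ 2 * (2 * (b * N) + 1) * 2 ^ ((a - b) * N) * (P ^ N * Z) := Nat.mul_le_mul_left _ h1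
      _ = 2 * (2 * (b * N) + 1) * ((P * 2 ^ (a - b)) ^ N) * Z := by
          rw [mul_pow, ← pow_mul 2 (a - b) N]
          ring
      _ ≤ 2 * (2 * (b * N) + 1) * ((2 ^ s * (2 ^ (2 * b) * Q)) ^ N) * Z :=
          Nat.mul_le_mul_right _ (Nat.mul_le_mul_left _ (Nat.pow_le_pow_left key N))
      _ = (2 * (2 * (b * N) + 1) * 2 ^ (s * N)) * (2 ^ (2 * b * N) * (Q ^ N * Z)) := by
          rw [mul_pow, mul_pow, ← pow_mul, ← pow_mul]
          ring
  exact Nat.le_of_mul_le_mul_right h2 (by positivity)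

theorem key1 : 2 ^ 10000 * (620 ^ 620 * (10000 - 620) ^ (10000 - 620)) ≤
    2 ^ 6649 * 10000 ^ 10000 := by
  decide +kernel

theorem key2 : 10000 ^ 10000 * 2 ^ (10000 - 4418) ≤
    2 ^ 6649 * (2 ^ (2 * 4418) * (4418 ^ 4418 * (10000 - 4418) ^ (10000 - 4418))) := by
  decide +kernel

end Pool.Agent.H618R3.FF
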