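import Pool.Agent.H618R3.FF.Upper2

set_option autoImplicit false

/-! The upper bound: conclusion. -/

namespace Pool.Agent.H618R3.FF

open Finset Filter Topology

theorem gff_four_mult {N : ℕ} (hN : 1 ≤ N) :
    gff 4 (10000 * N) ≤ 1325 * (10000 * N + 1) * 2 ^ (6649 * N) := by
  classical
  refine gff_le (by omega) (fun F hF => ?_)
  change NoDisj 3 F at hF
  set F₁ := F.filter (fun x => ∀ y ∈ F, y ≠ x → 1164 * N < (Df x y).card) with hF₁
  set F₂ := F.filter (fun x => ¬ ∀ y ∈ F, y ≠ x → 1164 * N < (Df x y).card) with hF₂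
  have hcard : F₁.card + F₂.card = F.card := by
    rw [hF₁, hF₂, card_filter_add_card_filter_not]
  have h1 : F₁.card ≤ 1323 * (10000 * N + 1) * 2 ^ (6649 * N) := by
    refine far_num (a := 10000) (b := 620) hN (by norm_num) (by norm_num) key1 ?_
    refine elias F₁ (fun c => ?_)
    set A := F₁.filter (fun x => (Df x c).card = 620 * N) with hA
    have h2 := johnson (w := 620 * N) (e := 1164 * N) A c (fun x hx => (mem_filter.1 hx).2) (by
      intro x hx y hy hxy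
      have hx' := (mem_filter.1 (mem_filter.1 hx).1).2
      have hy' := (mem_filter.1 (mem_filter.1 hy).1).1
      exact (hx' y hy' (Ne.symm hxy)).le)
    have hNr : (1 : ℝ) ≤ N := by exact_mod_cast hN
    have h3 : (A.card : ℝ) * 8800 ≤ 11640000 := by
      have h4 : (N : ℝ) ^ 2 * ((A.card : ℝ) * 8800) ≤ (N : ℝ) ^ 2 * 11640000 := by
        push_cast at h2
        nlinarith
      exact le_of_mul_le_mul_left h4 (by positivity)
    have h5 : (A.card : ℝ) ≤ 1323 := by linarith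
    exact_mod_cast h5
  have h2 : F₂.card ≤ 2 * (2 * (4418 * N) + 1) * 2 ^ (6649 * N) := by
    refine close_num (a := 10000) (b := 4418) hN (by norm_num) (by norm_num) (by norm_num) key2 ?_
    refine close_count (e := 1164 * N) (by omega) F hF F₂ (filter_subset _ _) ?_
    intro x hx
    have hx' := (mem_filter.1 hx).2
    push Not at hx'
    exact hx'
  have h3 : 2 * (2 * (4418 * N) + 1) ≤ 2 * (10000 * N + 1) := by omega
  calc F.card = F₁.card + F₂.card := hcard.symm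
    _ ≤ 1323 * (10000 * N + 1) * 2 ^ (6649 * N) + 2 * (10000 * N + 1) * 2 ^ (6649 * N) :=
      Nat.add_le_add h1 (h2.trans (Nat.mul_le_mul_right _ h3))
    _ = 1325 * (10000 * N + 1) * 2 ^ (6649 * N) := by ring

/-- `gff (t + 1) n ≤ C * 2 ^ ((1 - 1 / u) n)` for all `n`. -/
def UB (t : ℕ) (u : ℝ) : Prop :=
  0 < u ∧ ∃ C : ℝ, 0 < C ∧ ∀ n : ℕ, (gff (t + 1) n : ℝ) ≤ C * (2 : ℝ) ^ ((1 - 1 / u) * n)

theorem UB_one : UB 1 1 := by
  refine ⟨one_pos, 1, one_pos, fun n => ?_⟩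
  have h := gff_two_le n
  have h' : (gff 2 n : ℝ) ≤ 1 := by exact_mod_cast h
  simpa using h'

theorem UB_three : UB 3 (200 / 67) := by
  refine ⟨by norm_num, 2 ^ 10000 * (1325 * 10001), by positivity, fun n => ?_⟩
  set N := n / 10000 with hNdef
  have hle : 10000 * N ≤ n := Nat.mul_div_le n 10000
  have hlt : n - 10000 * N < 10000 := by
    have := Nat.mod_lt n (show 10000 > 0 by norm_num)
    have h2 := Nat.div_add_mod n 10000
    omega
  have h1 : gff 4 n ≤ 2 ^ (n - 10000 * N) * gff 4 (10000 * N) :=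
    gff_restrict (t := 3) (by norm_num) hle
  have h2 : gff 4 (10000 * N) ≤ (1325 * 10001) * 2 ^ (6650 * N) := by
    rcases Nat.eq_zero_or_pos N with h0 | h0
    · rw [h0]
      have := gff_le_two_pow 4 (10000 * 0)
      simp only [mul_zero, pow_zero, mul_one] at this ⊢
      omega
    · refine (gff_four_mult h0).trans ?_
      have h3 : 10000 * N + 1 ≤ 10001 * 2 ^ N := by
        have := Nat.lt_two_pow_self (n := N)
        omega
      calc 1325 * (10000 * N + 1) * 2 ^ (6649 * N)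
          ≤ 1325 * (10001 * 2 ^ N) * 2 ^ (6649 * N) :=
            Nat.mul_le_mul_right _ (Nat.mul_le_mul_left _ h3)
        _ = (1325 * 10001) * 2 ^ (6650 * N) := by
            rw [show 6650 * N = N + 6649 * N by ring, pow_add]
            ring
  have h3 : (2 : ℕ) ^ (n - 10000 * N) ≤ 2 ^ 10000 := Nat.pow_le_pow_right (by norm_num) hlt.le
  have h4 : (gff 4 n : ℝ) ≤ 2 ^ 10000 * ((1325 * 10001) * 2 ^ (6650 * N)) := by
    have h5 := h1.trans (Nat.mul_le_mul h3 h2)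
    exact_mod_cast h5
  have h6 : ((6650 * N : ℕ) : ℝ) ≤ (1 - 1 / (200 / 67)) * (n : ℝ) := by
    have h7 : ((10000 * N : ℕ) : ℝ) ≤ n := by exact_mod_cast hle
    push_cast at h7 ⊢
    linarith
  have h8 : (2 : ℝ) ^ (6650 * N) ≤ (2 : ℝ) ^ ((1 - 1 / (200 / 67)) * (n : ℝ)) := by
    rw [← Real.rpow_natCast]
    exact Real.rpow_le_rpow_of_exponent_le (by norm_num) h6
  calc (gff (3 + 1) n : ℝ) ≤ 2 ^ 10000 * ((1325 * 10001) * 2 ^ (6650 * N)) := h4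
    _ = (2 ^ 10000 * (1325 * 10001)) * 2 ^ (6650 * N) := by ring
    _ ≤ (2 ^ 10000 * (1325 * 10001)) * (2 : ℝ) ^ ((1 - 1 / (200 / 67)) * (n : ℝ)) :=
      mul_le_mul_of_nonneg_left h8 (by positivity)

theorem UB_add {t₁ t₂ : ℕ} {u₁ u₂ : ℝ} (ht₁ : 1 ≤ t₁) (ht₂ : 1 ≤ t₂) (h₁ : UB t₁ u₁)
    (h₂ : UB t₂ u₂) : UB (t₁ + t₂) (u₁ + u₂) := by
  obtain ⟨hu₁, C₁, hC₁, hb₁⟩ := h₁
  obtain ⟨hu₂, C₂, hC₂, hb₂⟩ := h₂
  refine ⟨by positivity, C₁ + C₂ * (2 : ℝ) ^ (1 / u₂), by positivity, fun n => ?_⟩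
  set u := u₁ + u₂ with hu
  have hu0 : 0 < u := by positivity
  set a₁ := ⌈(u₁ / u) * (n : ℝ)⌉₊ with ha₁
  have hn0 : (0 : ℝ) ≤ n := Nat.cast_nonneg _
  have hfrac : u₁ / u ≤ 1 := by
    rw [div_le_one hu0]
    linarith
  have ha₁n : a₁ ≤ n := by
    rw [ha₁, Nat.ceil_le]
    nlinarith
  set a₂ := n - a₁ with ha₂
  have hn : n = a₁ + a₂ := by omega
  have hnr : (n : ℝ) = a₁ + a₂ := by exact_mod_cast hn
  have hlow₁ : (u₁ / u) * (n : ℝ) ≤ a₁ := Nat.le_ceil _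
  have hup₁ : (a₁ : ℝ) < (u₁ / u) * (n : ℝ) + 1 := Nat.ceil_lt_add_one (by positivity)
  have e₁ : (a₂ : ℝ) + (1 - 1 / u₁) * a₁ ≤ (1 - 1 / u) * n := by
    have h1 : (n : ℝ) / u ≤ a₁ / u₁ := by
      rw [le_div_iff₀ hu₁]
      calc (n : ℝ) / u * u₁ = (u₁ / u) * n := by ring
        _ ≤ a₁ := hlow₁
    have h2 : (1 - 1 / u₁) * (a₁ : ℝ) = a₁ - a₁ / u₁ := by ring
    have h3 : (1 - 1 / u) * (n : ℝ) = n - n / u := by ring
    rw [h2, h3]
    linarith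
  have e₂ : (a₁ : ℝ) + (1 - 1 / u₂) * a₂ ≤ (1 - 1 / u) * n + 1 / u₂ := by
    have h1 : (n : ℝ) / u ≤ a₂ / u₂ + 1 / u₂ := by
      rw [← add_div, le_div_iff₀ hu₂]
      have h4 : (n : ℝ) / u * u₂ = n - (u₁ / u) * n := by
        have : u₂ = u - u₁ := by rw [hu]; ring
        rw [this]
        field_simp
      rw [h4]
      linarith
    have h2 : (1 - 1 / u₂) * (a₂ : ℝ) = a₂ - a₂ / u₂ := by ring
    have h3 : (1 - 1 / u) * (n : ℝ) = n - n / u := by ring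
    rw [h2, h3]
    linarith
  have hmain := gff_add ht₁ ht₂ a₁ a₂
  rw [← hn] at hmain
  have hmain' : (gff (t₁ + t₂ + 1) n : ℝ) ≤
      2 ^ a₂ * (gff (t₁ + 1) a₁ : ℝ) + 2 ^ a₁ * (gff (t₂ + 1) a₂ : ℝ) := by
    exact_mod_cast hmain
  have f₁ : (2 : ℝ) ^ a₂ * (gff (t₁ + 1) a₁ : ℝ) ≤ C₁ * (2 : ℝ) ^ ((1 - 1 / u) * n) := by
    calc (2 : ℝ) ^ a₂ * (gff (t₁ + 1) a₁ : ℝ)
        ≤ (2 : ℝ) ^ a₂ * (C₁ * (2 : ℝ) ^ ((1 - 1 / u₁) * a₁)) :=
          mul_le_mul_of_nonneg_left (hb₁ a₁) (by positivity)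
      _ = C₁ * (2 : ℝ) ^ ((a₂ : ℝ) + (1 - 1 / u₁) * a₁) := by
          rw [Real.rpow_add (by norm_num), Real.rpow_natCast]
          ring
      _ ≤ C₁ * (2 : ℝ) ^ ((1 - 1 / u) * n) :=
          mul_le_mul_of_nonneg_left
            (Real.rpow_le_rpow_of_exponent_le (by norm_num) e₁) hC₁.le
  have f₂ : (2 : ℝ) ^ a₁ * (gff (t₂ + 1) a₂ : ℝ) ≤
      C₂ * (2 : ℝ) ^ (1 / u₂) * (2 : ℝ) ^ ((1 - 1 / u) * n) := by
    calc (2 : ℝ) ^ a₁ * (gff (t₂ + 1) a₂ : ℝ)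
        ≤ (2 : ℝ) ^ a₁ * (C₂ * (2 : ℝ) ^ ((1 - 1 / u₂) * a₂)) :=
          mul_le_mul_of_nonneg_left (hb₂ a₂) (by positivity)
      _ = C₂ * (2 : ℝ) ^ ((a₁ : ℝ) + (1 - 1 / u₂) * a₂) := by
          rw [Real.rpow_add (by norm_num), Real.rpow_natCast]
          ring
      _ ≤ C₂ * (2 : ℝ) ^ ((1 - 1 / u) * n + 1 / u₂) :=
          mul_le_mul_of_nonneg_left
            (Real.rpow_le_rpow_of_exponent_le (by norm_num) e₂) hC₂.le
      _ = C₂ * (2 : ℝ) ^ (1 / u₂) * (2 : ℝ) ^ ((1 - 1 / u) * n) := by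
          rw [Real.rpow_add (by norm_num)]
          ring
  calc (gff (t₁ + t₂ + 1) n : ℝ)
      ≤ 2 ^ a₂ * (gff (t₁ + 1) a₁ : ℝ) + 2 ^ a₁ * (gff (t₂ + 1) a₂ : ℝ) := hmain'
    _ ≤ C₁ * (2 : ℝ) ^ ((1 - 1 / u) * n) +
        C₂ * (2 : ℝ) ^ (1 / u₂) * (2 : ℝ) ^ ((1 - 1 / u) * n) := add_le_add f₁ f₂
    _ = (C₁ + C₂ * (2 : ℝ) ^ (1 / u₂)) * (2 : ℝ) ^ ((1 - 1 / u) * n) := by ring

theorem UB_mult (m : ℕ) : UB (3 * (m + 1)) ((m + 1 : ℕ) * (200 / 67)) := by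
  induction m with
  | zero =>
    have := UB_three
    simpa using this
  | succ m ih =>
    have h := UB_add (by omega) (by norm_num) ih UB_three
    have h1 : 3 * (m + 1) + 3 = 3 * (m + 1 + 1) := by ring
    have h2 : (((m + 1 : ℕ) : ℝ) * (200 / 67)) + 200 / 67 = ((m + 1 + 1 : ℕ) : ℝ) * (200 / 67) := by
      push_cast
      ring
    rw [h1, h2] at h
    exact h

theorem UB_all {t : ℕ} (ht : 3 ≤ t) : ∃ u : ℝ, UB t u ∧ u ≤ t * (335 / 336) := by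
  obtain ⟨m, s, hs, rfl⟩ : ∃ m s : ℕ, s < 3 ∧ t = 3 * (m + 1) + s :=
    ⟨t / 3 - 1, t % 3, Nat.mod_lt _ (by norm_num), by omega⟩
  have h := UB_mult m
  have hm : (0 : ℝ) ≤ m := Nat.cast_nonneg _
  interval_cases s
  · refine ⟨_, h, ?_⟩
    push_cast
    linarith
  · refine ⟨_, UB_add (by omega) le_rfl h UB_one, ?_⟩
    push_cast
    linarith
  · have h2 := UB_add (t₁ := 3 * (m + 1)) (t₂ := 1) (by omega) le_rfl h UB_one
    have h3 := UB_add (t₁ := 3 * (m + 1) + 1) (t₂ := 1) (by omega) le_rfl h2 UB_one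
    refine ⟨_, h3, ?_⟩
    push_cast
    linarith

theorem sigmaPlus_le_of_UB {t : ℕ} (ht : 1 ≤ t) {s C : ℝ} (hC : 0 < C)
    (h : ∀ n : ℕ, (gff (t + 1) n : ℝ) ≤ C * (2 : ℝ) ^ (s * n)) : sigmaPlus (t + 1) ≤ s := by
  unfold sigmaPlus
  refine le_of_forall_pos_le_add (fun ε hε => ?_)
  have hcob : IsCoboundedUnder (· ≤ ·) atTop
      (fun n : ℕ => Real.logb 2 (gff (t + 1) n) / n) :=
    (isBoundedUnder_of ⟨0, fun n => rate_nonneg (by omega) n⟩ :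
      IsBoundedUnder (· ≥ ·) atTop _).isCoboundedUnder_le
  refine limsup_le_of_le hcob ?_
  have h1 : Tendsto (fun n : ℕ => Real.logb 2 C / (n : ℝ)) atTop (𝓝 0) :=
    tendsto_const_div_atTop_nhds_zero_nat _
  have h2 := h1.eventually (gt_mem_nhds hε)
  filter_upwards [h2, eventually_gt_atTop 0] with n hn hn0
  have hn' : (0 : ℝ) < n := by exact_mod_cast hn0
  have hpos : (0 : ℝ) < gff (t + 1) n := by
    exact_mod_cast gff_pos (r := t + 1) (n := n) (by omega)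
  have h3 : Real.logb 2 (gff (t + 1) n) ≤ Real.logb 2 (C * (2 : ℝ) ^ (s * n)) :=
    Real.logb_le_logb_of_le (by norm_num) hpos (h n)
  rw [Real.logb_mul hC.ne' (by positivity), Real.logb_rpow (by norm_num) (by norm_num)] at h3
  rw [div_le_iff₀ hn']
  have h4 : Real.logb 2 C < ε * n := by
    rwa [div_lt_iff₀ hn'] at hn
  nlinarith

/-- The upper bound in explicit form. -/
theorem upper_all {t : ℕ} (ht : 3 ≤ t) : ∃ C : ℝ, 0 < C ∧ ∀ n : ℕ,
    (gff (t + 1) n : ℝ) ≤ C * (2 : ℝ) ^ ((1 - (1 + 1 / 335) / (t : ℝ)) * n) := by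
  obtain ⟨u, ⟨hu, C, hC, h⟩, hut⟩ := UB_all ht
  refine ⟨C, hC, fun n => (h n).trans (mul_le_mul_of_nonneg_left ?_ hC.le)⟩
  refine Real.rpow_le_rpow_of_exponent_le (by norm_num) ?_
  have hn : (0 : ℝ) ≤ n := Nat.cast_nonneg _
  refine mul_le_mul_of_nonneg_right ?_ hn
  have ht0 : (0 : ℝ) < t := by
    have : 0 < t := by omega
    exact_mod_cast this
  have h1 : (1 + 1 / 335) / (t : ℝ) ≤ 1 / u := by
    rw [div_le_div_iff₀ ht0 hu]
    linarith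
  linarith

end Pool.Agent.H618R3.FF
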